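import Pool.Agent.Work.MP_376faf_co_cub.ChainB

/-! The chain recursion in one dyadic block, for generating series (fixed length). -/

set_option autoImplicit false

namespace Pool.Agent.Work.MP_376faf_co_cub

open Pool.Agent.Work.MP_376faf_co_lower Pool.Agent.Work.MP_376faf_co_hw
open Pool.Agent.Work.MP_376faf_co_neps
open scoped ENNReal

open Classical in
/-- generating series of the half-plane walks of width at most `M` -/
noncomputable def Hz (M : ℕ) : PS := S (fun l : List Pt => l.length) (fun l => if HW M l then 1 else 0)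

theorem pr_Hz (M : ℕ) (f : ℕ → ℝ≥0∞) : pr (Hz M) f =
    ∑' r : List Pt, open Classical in if HW M r then f r.length else 0 := by
  unfold Hz
  rw [pr_S]
  refine tsum_congr fun r => ?_
  split_ifs <;> simp

open Classical in
/-- bridges with a continuation -/
noncomputable def YY (N M : ℕ) : PS := S (fun p : Br × List Pt => p.1.1.length + p.2.length)
  (fun p => if sp p.1.1 ≤ N ∧ HW M p.2 ∧ QQ p.1.1 p.2 then zN N ^ sp p.1.1 else 0)

theorem pr_YY (N M : ℕ) (f : ℕ → ℝ≥0∞) : pr (YY N M) f =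
    ∑' c : Br, open Classical in (if sp c.1 ≤ N then zN N ^ sp c.1 *
      GG M c.1 (fun k => f (c.1.length + k)) else 0) := by
  classical
  unfold YY
  rw [pr_S, ENNReal.tsum_prod']
  refine tsum_congr fun c => ?_
  by_cases h : sp c.1 ≤ N
  · rw [if_pos h]
    unfold GG
    rw [← ENNReal.tsum_mul_left]
    refine tsum_congr fun r => ?_
    simp only [h, true_and]
    split_ifs <;> simp
  · rw [if_neg h]
    simp [h]

open Classical in
/-- weights of the first kind -/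
noncomputable def f1 (N A : ℕ) : PS := S (fun p : Br × Q3 => p.1.1.length + lq p.2)
  (fun p => if sp p.1.1 ≤ N ∧ W2 p.1.1 p.2.1.1 ∧ s3 p.2 = A ∧ sp p.2.2.2.1 ≤ N then
    zN N ^ sp p.1.1 * kz (zN N) p.2 else 0)

open Classical in
/-- weights of the second kind -/
noncomputable def f2 (N A : ℕ) : PS := S (fun p : (Br × Q3) × Br =>
    p.1.1.1.length + lq p.1.2 + p.2.1.length)
  (fun p => if (sp p.1.1.1 ≤ N ∧ W2 p.1.1.1 p.1.2.1.1 ∧ s3 p.1.2 = A ∧ sp p.1.2.2.2.1 ≤ N) ∧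
      W2 p.1.2.2.2.1 p.2.1 then
    zN N ^ sp p.1.1.1 * kz (zN N) p.1.2 * zN N ^ sp p.2.1 else 0)

open Classical in
/-- the second step, with the sum over the spans carried out -/
theorem pstep2 {N A : ℕ} (hN : 1 ≤ N) (hA : A < 2 * N + 1) {c : List Pt} (hc : Bridge c)
    (hs : sp c ≤ N) (f : ℕ → ℝ≥0∞) :
    GG (A - 1) c f ≤ pr (Hz (N - 1)) f +
      16 * ∑' e : Br, if W2 c e.1 then zN N ^ sp e.1 *
        pr (Kz (zN N) * YY N (A - 1)) (fun k => f (e.1.length + k)) else 0 := by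
  have h1 := pstep (M := A - 1) hN (by omega) hc hs f
  rw [pr_Hz]
  refine h1.trans (add_le_add le_rfl (mul_le_mul' le_rfl ?_))
  -- the sum over the spans
  have h2 : ∑ A' ∈ Finset.Ico N (A - 1 + 1), ∑' q : Q3,
        (if W2 c q.1.1 ∧ s3 q = A' ∧ sp q.2.2.1 ≤ N then
          kz (zN N) q * GG (A' - 1) q.2.2.1 (fun k => f (lq q + k)) else 0) ≤
      ∑' q : Q3, if W2 c q.1.1 ∧ sp q.2.2.1 ≤ N then
          kz (zN N) q * GG (A - 1) q.2.2.1 (fun k => f (lq q + k)) else 0 := by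
    rw [← Summable.tsum_finsetSum (fun _ _ => ENNReal.summable)]
    refine ENNReal.tsum_le_tsum fun q => ?_
    have h3 : ∀ A' ∈ Finset.Ico N (A - 1 + 1), (if W2 c q.1.1 ∧ s3 q = A' ∧ sp q.2.2.1 ≤ N then
          kz (zN N) q * GG (A' - 1) q.2.2.1 (fun k => f (lq q + k)) else 0) ≤
        if s3 q = A' then (if W2 c q.1.1 ∧ sp q.2.2.1 ≤ N then
          kz (zN N) q * GG (A - 1) q.2.2.1 (fun k => f (lq q + k)) else 0) else 0 := by
      intro A' hA'
      rw [Finset.mem_Ico] at hA'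
      by_cases h4 : W2 c q.1.1 ∧ s3 q = A' ∧ sp q.2.2.1 ≤ N
      · rw [if_pos h4, if_pos h4.2.1, if_pos ⟨h4.1, h4.2.2⟩]
        exact mul_le_mul' le_rfl (GG_mono (by omega) _ _)
      · rw [if_neg h4]
        exact zero_le
    refine (Finset.sum_le_sum h3).trans ?_
    rw [Finset.sum_ite_eq]
    split_ifs
    · exact le_rfl
    · exact le_rfl
    · exact zero_le
    · exact zero_le
  refine h2.trans (le_of_eq ?_)
  rw [ENNReal.tsum_prod']
  refine tsum_congr fun e => ?_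
  by_cases h5 : W2 c e.1
  · rw [if_pos h5]
    unfold Kz
    rw [pr_S_mul, ← ENNReal.tsum_mul_left, ENNReal.tsum_prod']
    refine tsum_congr fun j => ?_
    rw [pr_YY, ← mul_assoc, ← ENNReal.tsum_mul_left]
    refine tsum_congr fun c' => ?_
    by_cases h6 : sp c'.1 ≤ N
    · simp only [h5, h6, true_and, if_true]
      unfold kz lq
      simp only
      have h7 : (fun k => f (e.1.length + j.1.length + c'.1.length + k)) =
          fun k => f (e.1.length + (j.1.length + (c'.1.length + k))) := by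
        funext k
        congr 1
        ring
      rw [h7]
      ring
    · simp [h6]
  · simp [h5]

/-- the recursion -/
theorem YY_rec {N M : ℕ} (hN : 1 ≤ N) (hM : M < 2 * N) :
    Le (YY N M) (Uz (zN N) * Hz (N - 1) + ∑ A ∈ Finset.Ico N (M + 1),
      (cc 16 * (f1 N A * Hz (N - 1)) + cc 256 * (f2 N A * (Kz (zN N) * YY N (A - 1))))) := by
  classical
  rw [le_iff_pr]
  intro f
  rw [pr_add, pr_sum, pr_YY]
  have hU : pr (Uz (zN N) * Hz (N - 1)) f =
      ∑' c : Br, zN N ^ sp c.1 * pr (Hz (N - 1)) (fun k => f (c.1.length + k)) := by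
    unfold Uz
    rw [pr_S_mul]
  -- first step
  have h1 : ∀ c : Br, (if sp c.1 ≤ N then zN N ^ sp c.1 *
      GG M c.1 (fun k => f (c.1.length + k)) else 0) ≤
      zN N ^ sp c.1 * pr (Hz (N - 1)) (fun k => f (c.1.length + k)) +
      ∑ A ∈ Finset.Ico N (M + 1), 16 * ∑' q : Q3,
        if sp c.1 ≤ N ∧ W2 c.1 q.1.1 ∧ s3 q = A ∧ sp q.2.2.1 ≤ N then
          zN N ^ sp c.1 * kz (zN N) q *
            GG (A - 1) q.2.2.1 (fun k => f (c.1.length + (lq q + k))) else 0 := by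
    intro c
    by_cases h : sp c.1 ≤ N
    · rw [if_pos h]
      have h2 := pstep hN hM c.2 h (fun k => f (c.1.length + k))
      have h3 := pr_Hz (N - 1) (fun k => f (c.1.length + k))
      rw [← h3] at h2
      refine (mul_le_mul' le_rfl h2).trans ?_
      rw [mul_add]
      refine add_le_add le_rfl (le_of_eq ?_)
      rw [← mul_assoc, mul_comm (zN N ^ sp c.1) 16, mul_assoc, Finset.mul_sum, Finset.mul_sum]
      refine Finset.sum_congr rfl fun A _ => ?_
      rw [← ENNReal.tsum_mul_left]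
      congr 1
      refine tsum_congr fun q => ?_
      by_cases h3 : W2 c.1 q.1.1 ∧ s3 q = A ∧ sp q.2.2.1 ≤ N
      · rw [if_pos h3, if_pos ⟨h, h3⟩, mul_assoc]
      · rw [if_neg h3, if_neg (fun h4 => h3 h4.2), mul_zero]
    · rw [if_neg h]
      exact zero_le
  refine (ENNReal.tsum_le_tsum h1).trans ?_
  rw [ENNReal.tsum_add, hU, Summable.tsum_finsetSum (fun _ _ => ENNReal.summable)]
  refine add_le_add le_rfl (Finset.sum_le_sum fun A hA => ?_)
  rw [Finset.mem_Ico] at hA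
  rw [ENNReal.tsum_mul_left]
  -- second step
  have h2 : ∑' c : Br, ∑' q : Q3, (if sp c.1 ≤ N ∧ W2 c.1 q.1.1 ∧ s3 q = A ∧ sp q.2.2.1 ≤ N then
          zN N ^ sp c.1 * kz (zN N) q *
            GG (A - 1) q.2.2.1 (fun k => f (c.1.length + (lq q + k))) else 0) ≤
      pr (f1 N A * Hz (N - 1)) f + 16 * pr (f2 N A * (Kz (zN N) * YY N (A - 1))) f := by
    have e1 : pr (f1 N A * Hz (N - 1)) f = ∑' c : Br, ∑' q : Q3,
        (if sp c.1 ≤ N ∧ W2 c.1 q.1.1 ∧ s3 q = A ∧ sp q.2.2.1 ≤ N then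
          zN N ^ sp c.1 * kz (zN N) q else 0) *
          pr (Hz (N - 1)) (fun k => f (c.1.length + (lq q + k))) := by
      unfold f1
      rw [pr_S_mul, ENNReal.tsum_prod']
      refine tsum_congr fun c => tsum_congr fun q => ?_
      simp only [add_assoc]
    have e2 : pr (f2 N A * (Kz (zN N) * YY N (A - 1))) f = ∑' c : Br, ∑' q : Q3, ∑' e : Br,
        (if (sp c.1 ≤ N ∧ W2 c.1 q.1.1 ∧ s3 q = A ∧ sp q.2.2.1 ≤ N) ∧ W2 q.2.2.1 e.1 then
          zN N ^ sp c.1 * kz (zN N) q * zN N ^ sp e.1 else 0) *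
          pr (Kz (zN N) * YY N (A - 1)) (fun k => f (c.1.length + (lq q + (e.1.length + k)))) := by
      unfold f2
      rw [pr_S_mul, ENNReal.tsum_prod', ENNReal.tsum_prod']
      refine tsum_congr fun c => tsum_congr fun q => tsum_congr fun e => ?_
      simp only [add_assoc]
    rw [e1, e2, ← ENNReal.tsum_mul_left, ← ENNReal.tsum_add]
    refine ENNReal.tsum_le_tsum fun c => ?_
    rw [← ENNReal.tsum_mul_left, ← ENNReal.tsum_add]
    refine ENNReal.tsum_le_tsum fun q => ?_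
    by_cases h3 : sp c.1 ≤ N ∧ W2 c.1 q.1.1 ∧ s3 q = A ∧ sp q.2.2.1 ≤ N
    · rw [if_pos h3, if_pos h3]
      have h4 := pstep2 (A := A) hN (by omega) q.2.2.2 h3.2.2.2
        (fun k => f (c.1.length + (lq q + k)))
      refine (mul_le_mul' le_rfl h4).trans ?_
      rw [mul_add]
      refine add_le_add le_rfl (le_of_eq ?_)
      rw [← mul_assoc, mul_comm _ (16 : ℝ≥0∞), mul_assoc, ← ENNReal.tsum_mul_left]
      congr 1
      refine tsum_congr fun e => ?_
      by_cases h5 : W2 q.2.2.1 e.1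
      · rw [if_pos h5, if_pos ⟨h3, h5⟩]
        ring
      · rw [if_neg h5, if_neg (fun h => h5 h.2)]
        simp
    · rw [if_neg h3]
      exact zero_le
  rw [pr_add, pr_cc, pr_cc]
  refine (mul_le_mul' le_rfl h2).trans (le_of_eq ?_)
  rw [mul_add, ← mul_assoc]
  norm_num

/-- sum of the weights of the first kind -/
theorem sum_f1 (N : ℕ) (s : Finset ℕ) :
    Le (∑ A ∈ s, f1 N A) (Vz N (zN N) * (Kz (zN N) * Uz (zN N))) := by
  classical
  rw [le_iff_pr]
  intro f
  rw [pr_sum]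
  have e1 : ∀ A, pr (f1 N A) f = ∑' p : Br × Q3, if s3 p.2 = A then
      (if sp p.1.1 ≤ N ∧ W2 p.1.1 p.2.1.1 ∧ sp p.2.2.2.1 ≤ N then
        zN N ^ sp p.1.1 * kz (zN N) p.2 * f (p.1.1.length + lq p.2) else 0) else 0 := by
    intro A
    unfold f1
    rw [pr_S]
    refine tsum_congr fun p => ?_
    by_cases h1 : s3 p.2 = A
    · rw [if_pos h1]
      by_cases h2 : sp p.1.1 ≤ N ∧ W2 p.1.1 p.2.1.1 ∧ sp p.2.2.2.1 ≤ N
      · rw [if_pos h2, if_pos ⟨h2.1, h2.2.1, h1, h2.2.2⟩]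
      · rw [if_neg h2, if_neg (fun h => h2 ⟨h.1, h.2.1, h.2.2.2⟩), zero_mul]
    · rw [if_neg h1, if_neg (fun h => h1 h.2.2.1), zero_mul]
  simp only [e1]
  rw [← Summable.tsum_finsetSum (fun _ _ => ENNReal.summable)]
  have h1 : ∀ p : Br × Q3, ∑ A ∈ s, (if s3 p.2 = A then
      (if sp p.1.1 ≤ N ∧ W2 p.1.1 p.2.1.1 ∧ sp p.2.2.2.1 ≤ N then
        zN N ^ sp p.1.1 * kz (zN N) p.2 * f (p.1.1.length + lq p.2) else 0) else 0) ≤
      if W2 p.1.1 p.2.1.1 ∧ sp p.1.1 ≤ N then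
        zN N ^ sp p.1.1 * kz (zN N) p.2 * f (p.1.1.length + lq p.2) else 0 := by
    intro p
    rw [Finset.sum_ite_eq]
    by_cases h2 : sp p.1.1 ≤ N ∧ W2 p.1.1 p.2.1.1 ∧ sp p.2.2.2.1 ≤ N
    · rw [if_pos h2, if_pos (c := W2 p.1.1 p.2.1.1 ∧ sp p.1.1 ≤ N) ⟨h2.2.1, h2.1⟩]
      split_ifs
      · exact le_rfl
      · exact zero_le
    · rw [if_neg h2]
      split_ifs <;> exact zero_le
  refine (ENNReal.tsum_le_tsum h1).trans (le_of_eq ?_)
  unfold Vz
  rw [pr_S_mul, ENNReal.tsum_prod', ENNReal.tsum_prod']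
  refine tsum_congr fun c => ?_
  rw [ENNReal.tsum_prod']
  refine tsum_congr fun e => ?_
  simp only
  by_cases h2 : W2 c.1 e.1 ∧ sp c.1 ≤ N
  · simp only [if_pos h2]
    unfold Kz
    rw [pr_S_mul, ENNReal.tsum_prod', ← ENNReal.tsum_mul_left]
    refine tsum_congr fun j => ?_
    unfold Uz
    rw [pr_S, ← mul_assoc, ← ENNReal.tsum_mul_left]
    refine tsum_congr fun c' => ?_
    unfold kz lq
    simp only
    rw [show c.1.length + (e.1.length + j.1.length + c'.1.length) =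
      c.1.length + e.1.length + (j.1.length + c'.1.length) by ring]
    ring
  · simp only [if_neg h2]
    simp

/-- sum of the weights of the second kind -/
theorem sum_f2 (N : ℕ) (s : Finset ℕ) :
    Le (∑ A ∈ s, f2 N A) (Vz N (zN N) * (Kz (zN N) * Vz N (zN N))) := by
  classical
  rw [le_iff_pr]
  intro f
  rw [pr_sum]
  have e1 : ∀ A, pr (f2 N A) f = ∑' p : (Br × Q3) × Br, if s3 p.1.2 = A then
      (if (sp p.1.1.1 ≤ N ∧ W2 p.1.1.1 p.1.2.1.1 ∧ sp p.1.2.2.2.1 ≤ N) ∧ W2 p.1.2.2.2.1 p.2.1 then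
        zN N ^ sp p.1.1.1 * kz (zN N) p.1.2 * zN N ^ sp p.2.1 *
          f (p.1.1.1.length + lq p.1.2 + p.2.1.length) else 0) else 0 := by
    intro A
    unfold f2
    rw [pr_S]
    refine tsum_congr fun p => ?_
    by_cases h1 : s3 p.1.2 = A
    · rw [if_pos h1]
      by_cases h2 : (sp p.1.1.1 ≤ N ∧ W2 p.1.1.1 p.1.2.1.1 ∧ sp p.1.2.2.2.1 ≤ N) ∧
          W2 p.1.2.2.2.1 p.2.1
      · rw [if_pos h2, if_pos ⟨⟨h2.1.1, h2.1.2.1, h1, h2.1.2.2⟩, h2.2⟩]
      · rw [if_neg h2, if_neg (fun h => h2 ⟨⟨h.1.1, h.1.2.1, h.1.2.2.2⟩, h.2⟩), zero_mul]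
    · rw [if_neg h1, if_neg (fun h => h1 h.1.2.2.1), zero_mul]
  simp only [e1]
  rw [← Summable.tsum_finsetSum (fun _ _ => ENNReal.summable)]
  have h1 : ∀ p : (Br × Q3) × Br, ∑ A ∈ s, (if s3 p.1.2 = A then
      (if (sp p.1.1.1 ≤ N ∧ W2 p.1.1.1 p.1.2.1.1 ∧ sp p.1.2.2.2.1 ≤ N) ∧ W2 p.1.2.2.2.1 p.2.1 then
        zN N ^ sp p.1.1.1 * kz (zN N) p.1.2 * zN N ^ sp p.2.1 *
          f (p.1.1.1.length + lq p.1.2 + p.2.1.length) else 0) else 0) ≤
      if (sp p.1.1.1 ≤ N ∧ W2 p.1.1.1 p.1.2.1.1 ∧ sp p.1.2.2.2.1 ≤ N) ∧ W2 p.1.2.2.2.1 p.2.1 then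
        zN N ^ sp p.1.1.1 * kz (zN N) p.1.2 * zN N ^ sp p.2.1 *
          f (p.1.1.1.length + lq p.1.2 + p.2.1.length) else 0 := by
    intro p
    rw [Finset.sum_ite_eq]
    split_ifs
    · exact le_rfl
    · exact le_rfl
    · exact zero_le
    · exact le_rfl
  refine (ENNReal.tsum_le_tsum h1).trans (le_of_eq ?_)
  unfold Vz
  rw [pr_S_mul, ENNReal.tsum_prod', ENNReal.tsum_prod', ENNReal.tsum_prod']
  refine tsum_congr fun c => ?_
  rw [ENNReal.tsum_prod']
  refine tsum_congr fun e => ?_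
  simp only
  by_cases h2 : W2 c.1 e.1 ∧ sp c.1 ≤ N
  · simp only [if_pos h2]
    unfold Kz
    rw [pr_S_mul, ENNReal.tsum_prod', ← ENNReal.tsum_mul_left]
    refine tsum_congr fun j => ?_
    rw [pr_S, ENNReal.tsum_prod', ← mul_assoc, ← ENNReal.tsum_mul_left]
    refine tsum_congr fun c' => ?_
    rw [← ENNReal.tsum_mul_left]
    refine tsum_congr fun e' => ?_
    by_cases h3 : W2 c'.1 e'.1 ∧ sp c'.1 ≤ N
    · rw [if_pos h3, if_pos ⟨⟨h2.2, h2.1, h3.2⟩, h3.1⟩]
      unfold kz lq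
      simp only
      rw [show c.1.length + (e.1.length + j.1.length + c'.1.length) + e'.1.length =
        c.1.length + e.1.length + (j.1.length + (c'.1.length + e'.1.length)) by ring]
      ring
    · rw [if_neg h3, if_neg (fun h => h3 ⟨h.2, h.1.2.2⟩)]
      simp
  · simp only [if_neg h2]
    simp only [zero_mul]
    refine ENNReal.tsum_eq_zero.2 fun p => ENNReal.tsum_eq_zero.2 fun e' => ?_
    rw [if_neg]
    rintro ⟨⟨h3, h4, -⟩, -⟩
    exact h2 ⟨h4, h3⟩

theorem Le_cc {a b : ℝ≥0∞} (h : a ≤ b) : Le (cc a) (cc b) := by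
  intro n
  unfold cc
  rw [PowerSeries.coeff_C, PowerSeries.coeff_C]
  split_ifs
  · exact h
  · exact le_rfl

theorem cc_mul (a b : ℝ≥0∞) : cc a * cc b = cc (a * b) := by
  unfold cc
  rw [map_mul]

theorem cc_one : cc 1 = 1 := by
  unfold cc
  rw [map_one]

theorem cc_add (a b : ℝ≥0∞) : cc a + cc b = cc (a + b) := by
  unfold cc
  rw [map_add]

theorem Hz_le_YY (N M : ℕ) : Le (Hz M) (YY N M) := by
  classical
  rw [le_iff_pr]
  intro f
  rw [pr_Hz, pr_YY]
  refine le_trans ?_ (ENNReal.le_tsum (⟨[], bridge_nil⟩ : Br))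
  have h1 : sp ([] : List Pt) = 0 := by simp [sp]
  simp only [h1, Nat.zero_le, if_true, pow_zero, one_mul, List.length_nil, zero_add]
  unfold GG
  refine ENNReal.tsum_le_tsum fun r => ?_
  by_cases h : HW M r
  · rw [if_pos h, if_pos ⟨h, QQ_nil h.1.1⟩]
  · rw [if_neg h]
    exact zero_le

/-- one dyadic block -/
theorem block (i : ℕ) : Le (Hz (2 ^ (i + 1) - 1)) (cc (ENNReal.ofReal
    (Real.exp (30000 * ((i : ℝ) + 1) ^ 2))) * (Hz (2 ^ i - 1) * Bz)) := by
  set N := 2 ^ i with hN0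
  have hN : 1 ≤ N := Nat.one_le_two_pow
  set z := zN N with hz0
  have hz : z ≤ 1 := zN_le_one N
  set U := Uz z with hU
  set K := Kz z with hK
  set V := Vz N z with hV
  set H := Hz (N - 1) with hH
  set v : ℝ≥0∞ := ((8 * i + 10 : ℕ) : ℝ≥0∞) with hv
  have hVU : Le V (cc v * U) := Vz_le hz i
  have hUB : Le U Bz := Uz_le hz
  have hUKB : Le (U * K * Bz) Bz := UKB hz
  -- the recursion in the form of Groenwall
  set g : ℕ → PS := fun A => cc 256 * (f2 N A * K) with hg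
  set P : PS := U * H + cc 16 * ((∑ A ∈ Finset.Ico N (2 * N), f1 N A) * H) with hP
  have h1 : ∀ M, N - 1 ≤ M → M < 2 * N →
      Le (YY N M) (P + ∑ A ∈ Finset.Ico N (M + 1), g A * YY N (A - 1)) := by
    intro M _ hM
    refine (YY_rec hN hM).trans ?_
    have e1 : U * H + ∑ A ∈ Finset.Ico N (M + 1),
        (cc 16 * (f1 N A * H) + cc 256 * (f2 N A * (K * YY N (A - 1)))) =
        (U * H + cc 16 * ((∑ A ∈ Finset.Ico N (M + 1), f1 N A) * H)) +
          ∑ A ∈ Finset.Ico N (M + 1), g A * YY N (A - 1) := by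
      rw [Finset.sum_add_distrib, add_assoc, Finset.sum_mul, Finset.mul_sum]
      congr 2
      refine Finset.sum_congr rfl fun A _ => ?_
      simp only [hg]
      ring
    rw [e1]
    refine Le.add (Le.add (Le.refl _) (Le.mul (Le.refl _) (Le.mul ?_ (Le.refl _)))) (Le.refl _)
    intro n
    rw [map_sum, map_sum]
    exact Finset.sum_le_sum_of_subset (Finset.Ico_subset_Ico_right (by omega))
  have h2 := gron hN h1
  have h3 : Le (Hz (2 * N - 1)) (P * ∏ A ∈ Finset.Ico N (2 * N), (1 + g A)) :=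
    (Hz_le_YY N (2 * N - 1)).trans h2
  -- the sum of the weights
  have h4 : Le ((∑ A ∈ Finset.Ico N (2 * N), g A) * Bz) (cc (256 * v ^ 2) * Bz) := by
    have e1 : (∑ A ∈ Finset.Ico N (2 * N), g A) * Bz =
        cc 256 * ((∑ A ∈ Finset.Ico N (2 * N), f2 N A) * K * Bz) := by
      simp only [hg]
      rw [← Finset.mul_sum, ← Finset.sum_mul]
      ring
    rw [e1]
    have e2 : Le ((∑ A ∈ Finset.Ico N (2 * N), f2 N A) * K * Bz)
        ((cc v * U) * (K * (cc v * U)) * K * Bz) :=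
      Le.mul (Le.mul ((sum_f2 N _).trans (Le.mul hVU (Le.mul (Le.refl _) hVU))) (Le.refl _))
        (Le.refl _)
    have e3 : (cc v * U) * (K * (cc v * U)) * K * Bz = cc (v ^ 2) * (U * K * (U * K * Bz)) := by
      rw [pow_two, ← cc_mul]
      ring
    have e4 : Le (U * K * (U * K * Bz)) Bz :=
      (Le.mul (Le.refl _) hUKB).trans hUKB
    rw [e3] at e2
    have e5 := e2.trans (Le.mul (Le.refl (cc (v ^ 2))) e4)
    have e6 := Le.mul (Le.refl (cc 256)) e5
    have e7 : cc 256 * (cc (v ^ 2) * Bz) = cc (256 * v ^ 2) * Bz := by rw [← mul_assoc, cc_mul]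
    rw [e7] at e6
    exact e6
  have hv' : v = ENNReal.ofReal (8 * i + 10) := by
    rw [hv, ← ENNReal.ofReal_natCast]
    push_cast
    rfl
  have h5 : (256 * v ^ 2 : ℝ≥0∞) = ENNReal.ofReal (256 * (8 * i + 10) ^ 2) := by
    rw [hv', ← ENNReal.ofReal_pow (by positivity), show (256 : ℝ≥0∞) = ENNReal.ofReal 256 by simp,
      ← ENNReal.ofReal_mul (by norm_num)]
  rw [h5] at h4
  have h6 := prod_exp (by positivity) h4
  -- the factor in front
  have h7 : Le (P * ∏ A ∈ Finset.Ico N (2 * N), (1 + g A))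
      (cc (1 + 16 * v) * (cc (ENNReal.ofReal (Real.exp (256 * (8 * i + 10) ^ 2))) * (H * Bz))) := by
    set E := ∏ A ∈ Finset.Ico N (2 * N), (1 + g A) with hE
    have a1 : Le P (U * H + cc 16 * ((V * (K * U)) * H)) :=
      Le.add (Le.refl _) (Le.mul (Le.refl _) (Le.mul (sum_f1 N _) (Le.refl _)))
    have a2 : Le (U * H + cc 16 * ((V * (K * U)) * H)) (U * H + cc 16 * (((cc v * U) * (K * U)) * H)) :=
      Le.add (Le.refl _) (Le.mul (Le.refl _) (Le.mul (Le.mul hVU (Le.refl _)) (Le.refl _)))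
    have a3 : Le (P * E) ((U * H + cc 16 * (((cc v * U) * (K * U)) * H)) * E) :=
      Le.mul (a1.trans a2) (Le.refl _)
    have a4 : (U * H + cc 16 * (((cc v * U) * (K * U)) * H)) * E =
        (1 + cc (16 * v) * (U * K)) * H * E * U := by
      rw [← cc_mul]
      ring
    rw [a4] at a3
    have a5 : Le ((1 + cc (16 * v) * (U * K)) * H * E * U)
        ((1 + cc (16 * v) * (U * K)) * H * E * Bz) := Le.mul (Le.refl _) hUB
    have a6 : (1 + cc (16 * v) * (U * K)) * H * E * Bz =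
        H * (E * Bz) + cc (16 * v) * (H * (E * (U * K * Bz))) := by ring
    have a7 : Le (H * (E * Bz) + cc (16 * v) * (H * (E * (U * K * Bz))))
        (H * (E * Bz) + cc (16 * v) * (H * (E * Bz))) :=
      Le.add (Le.refl _) (Le.mul (Le.refl _) (Le.mul (Le.refl _) (Le.mul (Le.refl _) hUKB)))
    have a8 : H * (E * Bz) + cc (16 * v) * (H * (E * Bz)) = cc (1 + 16 * v) * (H * (E * Bz)) := by
      rw [← cc_add, cc_one]
      ring
    have a9 : Le (cc (1 + 16 * v) * (H * (E * Bz))) (cc (1 + 16 * v) * (H *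
        (cc (ENNReal.ofReal (Real.exp (256 * (8 * i + 10) ^ 2))) * Bz))) :=
      Le.mul (Le.refl _) (Le.mul (Le.refl _) h6)
    have a10 : cc (1 + 16 * v) * (H *
        (cc (ENNReal.ofReal (Real.exp (256 * (8 * i + 10) ^ 2))) * Bz)) =
        cc (1 + 16 * v) * (cc (ENNReal.ofReal (Real.exp (256 * (8 * i + 10) ^ 2))) * (H * Bz)) := by
      ring
    rw [a6] at a5
    rw [a8] at a7
    rw [a10] at a9
    exact ((a3.trans a5).trans a7).trans a9
  have h8 := h3.trans h7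
  rw [← mul_assoc, cc_mul] at h8
  rw [show 2 ^ (i + 1) - 1 = 2 * N - 1 by rw [hN0, pow_succ, mul_comm]]
  refine h8.trans (Le.mul (Le_cc ?_) (Le.refl _))
  have h9 : (1 : ℝ≥0∞) + 16 * ENNReal.ofReal (8 * i + 10) =
      ENNReal.ofReal (1 + 16 * (8 * i + 10)) := by
    have c1 : (16 : ℝ≥0∞) = ENNReal.ofReal 16 := by norm_num
    rw [c1, ← ENNReal.ofReal_mul (by norm_num), ← ENNReal.ofReal_one,
      ← ENNReal.ofReal_add (by norm_num) (by positivity)]
  rw [hv', h9, ← ENNReal.ofReal_mul (by positivity)]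
  refine ENNReal.ofReal_le_ofReal ?_
  have b1 : 1 + 16 * (8 * (i:ℝ) + 10) ≤ Real.exp (16 * (8 * i + 10)) := by
    have := Real.add_one_le_exp (16 * (8 * (i:ℝ) + 10))
    linarith
  calc (1 + 16 * (8 * (i:ℝ) + 10)) * Real.exp (256 * (8 * i + 10) ^ 2)
      ≤ Real.exp (16 * (8 * i + 10)) * Real.exp (256 * (8 * i + 10) ^ 2) := by gcongr
    _ = Real.exp (16 * (8 * i + 10) + 256 * (8 * i + 10) ^ 2) := by rw [← Real.exp_add]
    _ ≤ _ := by
        refine Real.exp_le_exp.2 ?_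
        have : (0:ℝ) ≤ i := Nat.cast_nonneg i
        nlinarith

theorem Hz_zero : Le (Hz 0) 1 := by
  classical
  intro n
  unfold Hz
  rw [coeff_S, PowerSeries.coeff_one]
  have h0 : ∀ l : List Pt, HW 0 l → l = [] := by
    intro l hl
    by_contra hne
    have hlen : 1 ≤ l.length := List.length_pos_iff.2 hne
    have h1 := hl.1.2 1 one_pos hlen
    have h2 := hl.2 1 hlen
    simp at h2
    omega
  have h1 : ∀ l : List Pt, (if l.length = n then (if HW 0 l then (1 : ℝ≥0∞) else 0) else 0) ≤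
      if l = [] then (if n = 0 then 1 else 0) else 0 := by
    intro l
    by_cases h : HW 0 l
    · have h2 := h0 l h
      subst h2
      rw [if_pos rfl]
      simp only [List.length_nil]
      by_cases hn : n = 0
      · rw [if_pos hn.symm, if_pos hn, if_pos h]
      · rw [if_neg (fun h => hn h.symm)]
        exact zero_le
    · rw [if_neg h]
      split_ifs <;> exact zero_le
  refine (ENNReal.tsum_le_tsum h1).trans ?_
  rw [tsum_ite_eq]

end Pool.Agent.Work.MP_376faf_co_cub
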