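import Pool.Agent.Work.MP_376faf_co_cub.Geo

/-! The conditions along a chain. -/

set_option autoImplicit false

namespace Pool.Agent.Work.MP_376faf_co_cub

open Pool.Agent.Work.MP_376faf_co_lower Pool.Agent.Work.MP_376faf_co_hw
open Pool.Agent.Work.MP_376faf_co_neps
open scoped ENNReal

/-- left ray -/
def LR (c e : List Pt) : Prop :=
  ∀ k ≤ e.length, (c.sum - pos e k).1 = 0 → 0 < (c.sum - pos e k).2

/-- the continuation `r` of the bridge `c` -/
structure QQ (c r : List Pt) : Prop where
  walk : Walk (c ++ ng r)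
  pl : ∀ e r', r = e ++ r' → Bridge e → Cp c e → LR c e
  mi : ∀ e r', r = e ++ r' → Bridge e → Cp (ry c) (ry e) → LR (ry c) (ry e)

theorem QQ_nil {r : List Pt} (h : Walk r) : QQ [] r where
  walk := by rw [List.nil_append]; exact ng_walk h
  pl := fun _ _ _ _ h => absurd rfl h.2.1
  mi := fun _ _ _ _ h => absurd rfl h.2.1

theorem ry_ng (l : List Pt) : ry (ng l) = ng (ry l) := by
  unfold ry ng
  rw [List.map_map, List.map_map]
  congr 1

theorem ry_app_ng (c e : List Pt) : ry (c ++ ng e) = ry c ++ ng (ry e) := by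
  rw [ry_append, ry_ng]

theorem ry_ne {l : List Pt} (h : l ≠ []) : ry l ≠ [] := by
  rw [← List.length_pos_iff] at h ⊢
  rwa [ry_length]

theorem walk_front {a b : List Pt} (h : Walk (a ++ b)) : Walk a := by
  have := h.take a.length
  rwa [List.take_left'] at this
  rfl

theorem walk_suffix' {a b : List Pt} (h : Walk (a ++ b)) : Walk b := by
  have := h.drop (j := a.length) (by simp)
  rwa [List.drop_left'] at this
  rfl

theorem LR.front {c e e' : List Pt} (h : LR c (e ++ e')) : LR c e := by
  intro k hk h1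
  have h2 := h k (by rw [List.length_append]; omega)
  rw [pos_append_left _ _ hk] at h2
  exact h2 h1

/-- the pairs at the tips -/
theorem QQ.w2 {c e f r' : List Pt} (hc : Bridge c) (he : Bridge e) (hf : Bridge f)
    (hf0 : f ≠ []) (hb : Bridge (e ++ f)) (h : QQ c ((e ++ f) ++ ng r')) (hs : sp c ≤ sp (e ++ f)) :
    W2 c e := by
  by_cases hc0 : c = []
  · exact Or.inl hc0
  by_cases he0 : e = []
  · exact Or.inr (Or.inl he0)
  have hW : Walk (c ++ ng (e ++ f)) := by
    have := h.walk
    rw [ng_append, ← List.append_assoc] at this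
    exact walk_front this
  have hb0 : e ++ f ≠ [] := by simp [he0]
  rcases hairpin_cases hc hb hW hc0 hb0 with h1 | h1
  · right; right; left
    refine ⟨Cp.sub (c' := []) hc he (by simpa using h1) hc0 he0, ?_, right_ray hc he hf h1 hf0 hs⟩
    exact (h.pl (e ++ f) (ng r') rfl hb h1).front
  · right; right; right
    have h2 := h.mi (e ++ f) (ng r') rfl hb h1
    rw [ry_append] at h1 h2
    refine ⟨Cp.sub (c' := []) (ry_bridge hc) (ry_bridge he) (by simpa using h1) (ry_ne hc0)
      (ry_ne he0), h2.front, ?_⟩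
    refine right_ray (ry_bridge hc) (ry_bridge he) (ry_bridge hf) h1 (ry_ne hf0) ?_
    rw [← ry_append, sp_ry, sp_ry]
    exact hs

/-- appending in front of the first arm -/
theorem Cp.front {p c e : List Pt} (h : Cp c e) (hw : Walk ((p ++ c) ++ ng e)) :
    Cp (p ++ c) e := by
  have hc : 0 < c.length := List.length_pos_iff.2 h.2.1
  refine ⟨hw, by simp [h.2.1], h.2.2.1, ?_⟩
  rw [List.length_append, show p.length + c.length - 1 = p.length + (c.length - 1) by omega,
    pos_append_right, pos_append_right, h.2.2.2]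
  abel

theorem next_aux {p c e r' : List Pt} {A : ℕ} (hp : Bridge p) (hc : Bridge c) (he : Bridge e)
    (hA : A ≤ sp (p ++ c)) (hA0 : 1 ≤ A) (hr : HalfLe (A - 1) (e ++ r'))
    (hw : Walk ((p ++ c) ++ ng (e ++ r'))) (h : Cp c e) : LR c e := by
  have h1 : Walk ((p ++ c) ++ ng e) := by
    rw [ng_append, ← List.append_assoc] at hw
    exact walk_front hw
  refine left_ray hp hc he (Cp.front h h1) h.2.1 ?_
  have h2 := hr.2 e.length (by simp)
  rw [pos_append_left _ _ le_rfl, pos_len, ← sp_eq he] at h2
  omega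

theorem half_ry {M : ℕ} {l : List Pt} (h : HalfLe M l) : HalfLe M (ry l) := by
  refine ⟨⟨ry_walk h.1.1, fun i h0 hi => ?_⟩, fun i hi => ?_⟩
  · rw [pos_ry]
    rw [ry_length] at hi
    exact h.1.2 i h0 hi
  · rw [pos_ry]
    rw [ry_length] at hi
    exact h.2 i hi

/-- the next continuation -/
theorem QQ_next {p c r : List Pt} {A : ℕ} (hp : Bridge p) (hc : Bridge c)
    (hA : A ≤ sp (p ++ c)) (hA0 : 1 ≤ A) (hr : HalfLe (A - 1) r) (hw : Walk ((p ++ c) ++ ng r)) :
    QQ c r where
  walk := by
    rw [List.append_assoc] at hw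
    exact walk_suffix' hw
  pl := by
    rintro e r' rfl he h
    exact next_aux hp hc he hA hA0 hr hw h
  mi := by
    rintro e r' rfl he h
    have h1 := half_ry hr
    rw [ry_append] at h1
    refine next_aux (ry_bridge hp) (ry_bridge hc) (ry_bridge he) ?_ hA0 h1 ?_ h
    · rw [← ry_append, sp_ry]
      exact hA
    · have := ry_walk hw
      rwa [ry_app_ng, ry_append, ry_append] at this

end Pool.Agent.Work.MP_376faf_co_cub
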