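import Pool.Agent.Work.MP_376faf_co_cub.VRay

/-! Telescoping over the cuts of the bridges, fixed length. -/

set_option autoImplicit false

namespace Pool.Agent.Work.MP_376faf_co_cub

open Pool.Agent.Work.MP_376faf_co_lower Pool.Agent.Work.MP_376faf_co_hw
open Pool.Agent.Work.MP_376faf_co_neps Pool.Agent.Work.MP_376faf_co_neps.IrrAux
open scoped ENNReal

theorem Uz_le {z : ℝ≥0∞} (hz : z ≤ 1) : Le (Uz z) Bz := by
  intro n
  unfold Uz Bz
  rw [coeff_S, coeff_S]
  refine ENNReal.tsum_le_tsum fun b => ?_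
  split_ifs
  · exact pow_le_one' hz _
  · exact le_rfl

/-- concatenation -/
def cat3 (q : Br × Ir × Br) : List Pt := q.1.1 ++ (q.2.1.1 ++ q.2.2.1)

theorem cat3_bridge (q : Br × Ir × Br) : Bridge (cat3 q) :=
  bridge_append q.1.2 (bridge_append q.2.1.2.1 q.2.2.2)

theorem cat3_ne (q : Br × Ir × Br) : cat3 q ≠ [] := by
  have := q.2.1.2.2.1
  unfold cat3
  simp [this]

/-- the decompositions of one bridge telescope -/
theorem teleU {z : ℝ≥0∞} (hz : z ≤ 1) : ∀ (n : ℕ) (w : List Pt), w.length ≤ n →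
    ∑' q : {q : Br × Ir × Br // cat3 q = w}, z ^ sp q.1.1.1 * (1 - z ^ sp q.1.2.1.1) ≤ 1 := by
  intro n
  induction n with
  | zero =>
    intro w hw
    have h0 : w = [] := List.length_eq_zero_iff.1 (by omega)
    subst h0
    have : IsEmpty {q : Br × Ir × Br // cat3 q = []} := ⟨fun q => cat3_ne q.1 q.2⟩
    rw [tsum_empty]
    exact zero_le
  | succ n ih =>
    intro w hw
    by_cases hne : Nonempty {q : Br × Ir × Br // cat3 q = w}
    swap
    · rw [not_nonempty_iff] at hne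
      rw [tsum_empty]
      exact zero_le
    obtain ⟨q0, hq0⟩ := hne
    have hb : Bridge w := hq0 ▸ cat3_bridge q0
    have h0 : w ≠ [] := hq0 ▸ cat3_ne q0
    obtain ⟨j, r, hj, hr, e⟩ := first_irr hb h0
    have hjl : 1 ≤ j.length := List.length_pos_iff.2 hj.2.1
    have hrl : r.length ≤ n := by
      rw [e, List.length_append] at hw
      omega
    have h1 := ih r hrl
    have hcat : ∀ q : Br × Ir × Br, cat3 q = r →
        cat3 ((⟨j ++ q.1.1, bridge_append hj.1 q.1.2⟩, q.2.1, q.2.2) : Br × Ir × Br) = w := by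
      intro q hq
      rw [e, ← hq]
      simp only [cat3, List.append_assoc]
    set g : Unit ⊕ {q : Br × Ir × Br // cat3 q = r} → {q : Br × Ir × Br // cat3 q = w} :=
      Sum.elim (fun _ => ⟨(⟨[], bridge_nil⟩, ⟨j, hj⟩, ⟨r, hr⟩), by rw [e]; rfl⟩)
        (fun q => ⟨(⟨j ++ q.1.1.1, bridge_append hj.1 q.1.1.2⟩, q.1.2.1, q.1.2.2), hcat q.1 q.2⟩)
      with hg
    have hsurj : Function.Surjective g := by
      rintro ⟨q, hq⟩
      by_cases hq1 : q.1.1 = []
      · refine ⟨Sum.inl (), ?_⟩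
        have h2 : q.2.1.1 ++ q.2.2.1 = j ++ r := by
          rw [← e, ← hq, cat3, hq1, List.nil_append]
        obtain ⟨e1, e2⟩ := irr_unique' q.2.1.2 hj q.2.2.2 hr h2
        refine Subtype.ext ?_
        exact Prod.ext (Subtype.ext hq1.symm) (Prod.ext (Subtype.ext e1.symm) (Subtype.ext e2.symm))
      · obtain ⟨j1, b1, hj1, hb1, e1⟩ := first_irr q.1.2 hq1
        have h2 : j1 ++ (b1 ++ (q.2.1.1 ++ q.2.2.1)) = j ++ r := by
          rw [← e, ← hq, cat3, e1, List.append_assoc]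
        obtain ⟨e2, e3⟩ := irr_unique' hj1 hj
          (bridge_append hb1 (bridge_append q.2.1.2.1 q.2.2.2)) hr h2
        refine ⟨Sum.inr ⟨(⟨b1, hb1⟩, q.2.1, q.2.2), e3⟩, ?_⟩
        refine Subtype.ext ?_
        exact Prod.ext (Subtype.ext (by rw [e1, e2]; rfl)) rfl
    refine (ENNReal.tsum_le_tsum_comp_of_surjective hsurj
      (fun q : {q : Br × Ir × Br // cat3 q = w} =>
        z ^ sp q.1.1.1 * (1 - z ^ sp q.1.2.1.1))).trans ?_
    rw [tsum_sum']
    have e1 : ∑' a : Unit, (z ^ sp (g (Sum.inl a)).1.1.1 * (1 - z ^ sp (g (Sum.inl a)).1.2.1.1)) =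
        1 - z ^ sp j := by
      rw [tsum_fintype]
      simp [hg, sp_nil]
    have e2 : ∑' q : {q : Br × Ir × Br // cat3 q = r},
        (z ^ sp (g (Sum.inr q)).1.1.1 * (1 - z ^ sp (g (Sum.inr q)).1.2.1.1)) =
        z ^ sp j * ∑' q : {q : Br × Ir × Br // cat3 q = r},
          z ^ sp q.1.1.1 * (1 - z ^ sp q.1.2.1.1) := by
      rw [← ENNReal.tsum_mul_left]
      refine tsum_congr fun q => ?_
      have : sp (g (Sum.inr q)).1.1.1 = sp j + sp q.1.1.1 := sp_app hj.1 q.1.1.2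
      rw [this, pow_add, mul_assoc]
      rfl
    calc _ = (1 - z ^ sp j) + z ^ sp j * ∑' q : {q : Br × Ir × Br // cat3 q = r},
          z ^ sp q.1.1.1 * (1 - z ^ sp q.1.2.1.1) := by rw [e1, e2]
      _ ≤ (1 - z ^ sp j) + z ^ sp j * 1 := by gcongr
      _ = 1 := by rw [mul_one, tsub_add_cancel_of_le (pow_le_one' hz _)]

/-- telescoping -/
theorem UKB {z : ℝ≥0∞} (hz : z ≤ 1) : Le (Uz z * Kz z * Bz) Bz := by
  rw [le_iff_pr]
  intro f
  rw [mul_assoc]
  have hL : pr (Uz z * (Kz z * Bz)) f = ∑' q : Br × Ir × Br,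
      z ^ sp q.1.1 * (1 - z ^ sp q.2.1.1) * f (cat3 q).length := by
    unfold Uz Kz Bz
    rw [pr_S_mul, ENNReal.tsum_prod']
    refine tsum_congr fun b => ?_
    rw [pr_S_mul, ENNReal.tsum_prod', ← ENNReal.tsum_mul_left]
    refine tsum_congr fun j => ?_
    rw [pr_S, ← ENNReal.tsum_mul_left, ← ENNReal.tsum_mul_left]
    refine tsum_congr fun c => ?_
    simp only [cat3, List.length_append]
    ring
  have hR : pr Bz f = ∑' w : Br, f w.1.length := by
    unfold Bz
    rw [pr_S]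
    simp
  rw [hL, hR]
  have hfib : ∑' q : Br × Ir × Br, z ^ sp q.1.1 * (1 - z ^ sp q.2.1.1) * f (cat3 q).length =
      ∑' w : Br, ∑' q : {q : Br × Ir × Br // cat3 q = w.1},
        z ^ sp q.1.1.1 * (1 - z ^ sp q.1.2.1.1) * f (cat3 q.1).length := by
    rw [← ENNReal.tsum_sigma' (fun p : (Σ w : Br, {q : Br × Ir × Br // cat3 q = w.1}) =>
      z ^ sp p.2.1.1.1 * (1 - z ^ sp p.2.1.2.1.1) * f (cat3 p.2.1).length)]
    let E : (Br × Ir × Br) ≃ (Σ w : Br, {q : Br × Ir × Br // cat3 q = w.1}) :=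
      { toFun := fun q => ⟨⟨cat3 q, cat3_bridge q⟩, q, rfl⟩
        invFun := fun p => p.2.1
        left_inv := fun _ => rfl
        right_inv := by
          rintro ⟨⟨w, hw⟩, q, hq⟩
          simp only at hq
          subst hq
          rfl }
    rw [← E.tsum_eq]
    rfl
  rw [hfib]
  refine ENNReal.tsum_le_tsum fun w => ?_
  calc ∑' q : {q : Br × Ir × Br // cat3 q = w.1},
        z ^ sp q.1.1.1 * (1 - z ^ sp q.1.2.1.1) * f (cat3 q.1).length
      = (∑' q : {q : Br × Ir × Br // cat3 q = w.1},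
        z ^ sp q.1.1.1 * (1 - z ^ sp q.1.2.1.1)) * f w.1.length := by
        rw [← ENNReal.tsum_mul_right]
        refine tsum_congr fun q => ?_
        rw [q.2]
    _ ≤ 1 * f w.1.length := by
        gcongr
        exact teleU hz w.1.length w.1 le_rfl
    _ = f w.1.length := one_mul _

end Pool.Agent.Work.MP_376faf_co_cub
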