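import Pool.Agent.Work.MP_376faf_co_cub.ChainA
import Pool.Agent.Work.MP_376faf_co_cub.UKB

/-! One step of the chain, for every test function. -/

set_option autoImplicit false

namespace Pool.Agent.Work.MP_376faf_co_cub

open Pool.Agent.Work.MP_376faf_co_lower Pool.Agent.Work.MP_376faf_co_hw
open Pool.Agent.Work.MP_376faf_co_neps
open scoped ENNReal

/-- half-plane walks of width at most `M` -/
def HW (M : ℕ) (l : List Pt) : Prop := HalfLe M l

theorem HW_mono {M M' : ℕ} (h : M ≤ M') {l : List Pt} (hl : HW M l) : HW M' l :=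
  ⟨hl.1, fun i hi => (hl.2 i hi).trans (by exact_mod_cast h)⟩

open Classical in
/-- continuations of `c` -/
noncomputable def GG (M : ℕ) (c : List Pt) (f : ℕ → ℝ≥0∞) : ℝ≥0∞ :=
  ∑' r : List Pt, if HW M r ∧ QQ c r then f r.length else 0

theorem GG_mono {M M' : ℕ} (h : M ≤ M') (c : List Pt) (f : ℕ → ℝ≥0∞) : GG M c f ≤ GG M' c f := by
  classical
  refine ENNReal.tsum_le_tsum fun r => ?_
  by_cases h1 : HW M r ∧ QQ c r
  · rw [if_pos h1, if_pos ⟨HW_mono h h1.1, h1.2⟩]
  · rw [if_neg h1]
    exact zero_le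

/-- decomposition of a half-plane walk of width at least `N` -/
theorem dec_HW {M N : ℕ} (hN : 1 ≤ N) {r : List Pt} (h : HW M r) (h1 : ¬ HW (N - 1) r) :
    ∃ A ∈ Finset.Ico N (M + 1), ∃ b r', r = b ++ ng r' ∧ BridgeW A b ∧ HW (A - 1) r' := by
  have h0 : r ≠ [] := by
    intro h0
    apply h1
    rw [h0]
    exact ⟨bridge_nil.half, fun i hi => by
      have : i = 0 := by simpa using hi
      subst this
      simp⟩
  obtain ⟨A, hA, b, r', e1, e2, e3, e4⟩ := dec_one (n := r.length) ⟨h, le_rfl⟩ h0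
  refine ⟨A + 1, ?_, b, r', e1, e2, by simpa [HW] using e3.1⟩
  rw [Finset.mem_Ico]
  refine ⟨?_, by omega⟩
  by_contra hlt
  apply h1
  refine ⟨h.1, fun i hi => ?_⟩
  rw [e1] at hi ⊢
  rw [List.length_append, ng_length] at hi
  rcases le_total i b.length with hib | hib
  · rw [pos_append_left _ _ hib]
    have h5 := e2.1.le_end hib
    rw [pos_len, e2.2] at h5
    push_cast at h5
    omega
  · obtain ⟨k, rfl⟩ := Nat.exists_eq_add_of_le hib
    rw [pos_append_right, pos_ng]
    have h6 : 0 ≤ (pos r' k).1 := by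
      rcases Nat.eq_zero_or_pos k with hk | hk
      · rw [hk]; simp
      · exact (e3.1.1.2 k hk (by omega)).le
    have h7 := e2.2
    simp only [Prod.fst_add, Prod.fst_neg]
    rw [h7]
    push_cast
    omega

/-- decompositions -/
abbrev Q3 : Type := Br × Ir × Br

/-- the decomposed bridge -/
def jn (q : Q3) : List Pt := q.1.1 ++ (q.2.1.1 ++ q.2.2.1)

/-- number of steps -/
def lq (q : Q3) : ℕ := q.1.1.length + q.2.1.1.length + q.2.2.1.length

/-- span -/
def s3 (q : Q3) : ℕ := sp q.1.1 + sp q.2.1.1 + sp q.2.2.1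

/-- weight -/
noncomputable def kz (z : ℝ≥0∞) (q : Q3) : ℝ≥0∞ :=
  z ^ sp q.1.1 * (1 - z ^ sp q.2.1.1) * z ^ sp q.2.2.1

theorem jn_length (q : Q3) : (jn q).length = lq q := by
  unfold jn lq
  rw [List.length_append, List.length_append, add_assoc]

theorem jn_bridge (q : Q3) : Bridge (jn q) :=
  bridge_append q.1.2 (bridge_append q.2.1.2.1 q.2.2.2)

theorem jn_sp (q : Q3) : sp (jn q) = s3 q := by
  unfold jn s3
  rw [IrrAux.sp_app q.1.2 (bridge_append q.2.1.2.1 q.2.2.2), IrrAux.sp_app q.2.1.2.1 q.2.2.2]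
  ring

theorem one_sub_zN {N : ℕ} (hN : 1 ≤ N) : 1 ≤ 2 * (1 - zN N ^ N) := by
  have h1 : zN N ^ N ≤ 2⁻¹ := by
    have hN' : (0:ℝ) < N := by exact_mod_cast hN
    rw [Pool.Agent.Work.MP_376faf_co_log.zN_ofReal N hN]
    set s : ℝ := 1 + 1 / (N : ℝ) with hs
    have hs0 : 0 < s := by rw [hs]; positivity
    have h3 : (2:ℝ) ≤ s ^ N := by
      have := one_add_mul_le_pow (a := 1 / (N:ℝ)) (by
        have : (0:ℝ) ≤ 1 / (N:ℝ) := by positivity
        linarith) N
      refine le_trans (le_of_eq ?_) this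
      field_simp
      norm_num
    rw [← ENNReal.ofReal_pow (by positivity), inv_pow,
      ENNReal.ofReal_inv_of_pos (by positivity), ENNReal.inv_le_inv]
    calc (2 : ℝ≥0∞) = ENNReal.ofReal 2 := by simp
      _ ≤ _ := ENNReal.ofReal_le_ofReal h3
  have h2 : (1:ℝ≥0∞) - 2⁻¹ ≤ 1 - zN N ^ N := tsub_le_tsub_left h1 1
  rw [ENNReal.one_sub_inv_two] at h2
  calc (1:ℝ≥0∞) = 2 * 2⁻¹ := (ENNReal.mul_inv_cancel two_ne_zero ENNReal.ofNat_ne_top).symm
    _ ≤ _ := mul_le_mul' le_rfl h2

open Classical in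
/-- the cut with a short right part -/
theorem cut_right {N : ℕ} (hN : 1 ≤ N) {b : List Pt} (hb : Bridge b) (h1 : N ≤ sp b)
    (h2 : sp b < 2 * N) :
    1 ≤ 16 * ∑' q : Q3, if jn q = b ∧ sp q.2.2.1 < N then kz (zN N) q else 0 := by
  have hz := zN_le_one N
  have h3 := Pool.Agent.Work.MP_376faf_co_log.teleR hz b.length b N le_rfl hb h1
  have h4 := one_sub_zN hN
  have h5 := Pool.Agent.Work.MP_376faf_co_log.num_big hN h2.le
  calc (1:ℝ≥0∞) = 1 * 1 := (one_mul 1).symm
    _ ≤ (8 * zN N ^ sp b) * (2 * (1 - zN N ^ N)) := mul_le_mul' h5 h4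
    _ = 16 * (zN N ^ sp b * (1 - zN N ^ N)) := by ring
    _ ≤ 16 * (zN N ^ sp b * ∑' q : Br × Ir × Br,
        if q.1.1 ++ (q.2.1.1 ++ q.2.2.1) = b ∧ sp q.2.2.1 < N then
          zN N ^ sp q.2.2.1 * (1 - zN N ^ sp q.2.1.1) else 0) := by
        gcongr
    _ ≤ _ := by
        rw [← ENNReal.tsum_mul_left]
        refine mul_le_mul' le_rfl (ENNReal.tsum_le_tsum fun q => ?_)
        by_cases h : q.1.1 ++ (q.2.1.1 ++ q.2.2.1) = b ∧ sp q.2.2.1 < N
        · rw [if_pos h, if_pos (show jn q = b ∧ sp q.2.2.1 < N from h)]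
          have h6 : sp q.1.1 ≤ sp b := by
            have h7 := jn_sp q
            have h8 : jn q = b := h.1
            rw [h8] at h7
            rw [h7]
            unfold s3
            omega
          unfold kz
          calc zN N ^ sp b * (zN N ^ sp q.2.2.1 * (1 - zN N ^ sp q.2.1.1))
              ≤ zN N ^ sp q.1.1 * (zN N ^ sp q.2.2.1 * (1 - zN N ^ sp q.2.1.1)) :=
                mul_le_mul' (pow_le_pow_right_of_le_one' hz h6) le_rfl
            _ = _ := by ring
        · rw [if_neg h]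
          simp

open Classical in
/-- splitting off the first bridge -/
theorem step_split {N M : ℕ} (hN : 1 ≤ N) (c : List Pt) (f : ℕ → ℝ≥0∞) :
    GG M c f ≤ (∑' r : List Pt, if HW (N - 1) r then f r.length else 0) +
      ∑ A ∈ Finset.Ico N (M + 1), ∑' b : Br, ∑' r' : List Pt,
        if sp b.1 = A ∧ HW (A - 1) r' ∧ QQ c (b.1 ++ ng r') then f (b.1.length + r'.length)
          else 0 := by
  -- termwise, with the indicator of `r = b ++ ng r'`
  have key : ∀ r : List Pt, (if HW M r ∧ QQ c r then f r.length else 0) ≤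
      (if HW (N - 1) r then f r.length else 0) +
      ∑ A ∈ Finset.Ico N (M + 1), ∑' b : Br, ∑' r' : List Pt,
        if r = b.1 ++ ng r' then
        (if sp b.1 = A ∧ HW (A - 1) r' ∧ QQ c (b.1 ++ ng r') then f (b.1.length + r'.length)
          else 0) else 0 := by
    intro r
    by_cases h : HW M r ∧ QQ c r
    · rw [if_pos h]
      by_cases h1 : HW (N - 1) r
      · rw [if_pos h1]
        exact le_self_add
      · refine le_trans ?_ le_add_self
        obtain ⟨A, hA, b, r', e1, e2, e3⟩ := dec_HW hN h.1 h1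
        refine le_trans ?_ (Finset.single_le_sum (f := fun A => ∑' b : Br, ∑' r' : List Pt,
          if r = b.1 ++ ng r' then
          (if sp b.1 = A ∧ HW (A - 1) r' ∧ QQ c (b.1 ++ ng r') then f (b.1.length + r'.length)
          else 0) else 0) (fun _ _ => zero_le) hA)
        refine le_trans ?_ (ENNReal.le_tsum (f := fun b : Br => ∑' r' : List Pt,
          if r = b.1 ++ ng r' then
          (if sp b.1 = A ∧ HW (A - 1) r' ∧ QQ c (b.1 ++ ng r') then f (b.1.length + r'.length)
          else 0) else 0) ⟨b, e2.1⟩)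
        refine le_trans ?_ (ENNReal.le_tsum (f := fun r' : List Pt =>
          if r = b ++ ng r' then
          (if sp b = A ∧ HW (A - 1) r' ∧ QQ c (b ++ ng r') then f (b.length + r'.length)
          else 0) else 0) r')
        have hs : sp b = A := sp_of_W e2
        rw [if_pos e1, if_pos ⟨hs, e3, e1 ▸ h.2⟩]
        rw [e1, List.length_append, ng_length]
    · rw [if_neg h]
      exact zero_le
  refine (ENNReal.tsum_le_tsum key).trans ?_
  rw [ENNReal.tsum_add, Summable.tsum_finsetSum (fun _ _ => ENNReal.summable)]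
  refine add_le_add le_rfl (Finset.sum_le_sum fun A _ => ?_)
  rw [ENNReal.tsum_comm]
  refine ENNReal.tsum_le_tsum fun b => ?_
  rw [ENNReal.tsum_comm]
  refine ENNReal.tsum_le_tsum fun r' => ?_
  rw [tsum_ite_eq]

open Classical in
/-- One step. -/
theorem pstep {N M : ℕ} (hN : 1 ≤ N) (hM : M < 2 * N) {c : List Pt} (hc : Bridge c)
    (hs : sp c ≤ N) (f : ℕ → ℝ≥0∞) :
    GG M c f ≤ (∑' r : List Pt, if HW (N - 1) r then f r.length else 0) +
      16 * ∑ A ∈ Finset.Ico N (M + 1), ∑' q : Q3,
        if W2 c q.1.1 ∧ s3 q = A ∧ sp q.2.2.1 ≤ N then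
          kz (zN N) q * GG (A - 1) q.2.2.1 (fun k => f (lq q + k)) else 0 := by
  refine (step_split hN c f).trans (add_le_add le_rfl ?_)
  rw [Finset.mul_sum]
  refine Finset.sum_le_sum fun A hA => ?_
  rw [Finset.mem_Ico] at hA
  set X : List Pt → ℝ≥0∞ := fun b => ∑' r' : List Pt,
    if HW (A - 1) r' ∧ QQ c (b ++ ng r') then f (b.length + r'.length) else 0 with hX
  -- cut
  have h1 : ∀ b : Br, ∑' r' : List Pt, (if sp b.1 = A ∧ HW (A - 1) r' ∧ QQ c (b.1 ++ ng r') then
      f (b.1.length + r'.length) else 0) ≤ 16 * ∑' q : Q3, if jn q = b.1 then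
        (if s3 q = A ∧ sp q.2.2.1 < N then kz (zN N) q * X (jn q) else 0) else 0 := by
    intro b
    by_cases hb : sp b.1 = A
    · have h2 := cut_right hN b.2 (by omega) (by omega)
      calc ∑' r' : List Pt, (if sp b.1 = A ∧ HW (A - 1) r' ∧ QQ c (b.1 ++ ng r') then
            f (b.1.length + r'.length) else 0) = 1 * X b.1 := by
            rw [one_mul]
            refine tsum_congr fun r' => ?_
            simp only [hb, true_and]
        _ ≤ (16 * ∑' q : Q3, if jn q = b.1 ∧ sp q.2.2.1 < N then kz (zN N) q else 0) * X b.1 :=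
            mul_le_mul' h2 le_rfl
        _ ≤ _ := by
            rw [mul_assoc, ← ENNReal.tsum_mul_right]
            refine mul_le_mul' le_rfl (ENNReal.tsum_le_tsum fun q => ?_)
            by_cases h3 : jn q = b.1
            · rw [if_pos h3]
              by_cases h4 : sp q.2.2.1 < N
              · rw [if_pos ⟨h3, h4⟩, if_pos ⟨by rw [← jn_sp, h3, hb], h4⟩, h3]
              · rw [if_neg (fun h => h4 h.2), zero_mul]
                exact zero_le
            · rw [if_neg (fun h => h3 h.1), zero_mul]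
              exact zero_le
    · have : ∀ r' : List Pt, (if sp b.1 = A ∧ HW (A - 1) r' ∧ QQ c (b.1 ++ ng r') then
            f (b.1.length + r'.length) else 0) = 0 := fun r' => if_neg (fun h => hb h.1)
      simp only [this, tsum_zero]
      exact zero_le
  refine (ENNReal.tsum_le_tsum h1).trans ?_
  rw [ENNReal.tsum_mul_left]
  refine mul_le_mul' le_rfl ?_
  rw [ENNReal.tsum_comm]
  refine ENNReal.tsum_le_tsum fun q => ?_
  -- sum over `b`
  have h2 : ∑' b : Br, (if jn q = b.1 then
      (if s3 q = A ∧ sp q.2.2.1 < N then kz (zN N) q * X (jn q) else 0) else 0) ≤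
      if s3 q = A ∧ sp q.2.2.1 < N then kz (zN N) q * X (jn q) else 0 := by
    rw [tsum_eq_single (⟨jn q, jn_bridge q⟩ : Br) (fun b hb => by
      rw [if_neg]
      intro h
      exact hb (Subtype.ext h.symm))]
    rw [if_pos rfl]
  refine h2.trans ?_
  by_cases h3 : s3 q = A ∧ sp q.2.2.1 < N
  · rw [if_pos h3]
    have hX2 : X (jn q) ≤ if W2 c q.1.1 then GG (A - 1) q.2.2.1 (fun k => f (lq q + k)) else 0 := by
      simp only [hX]
      by_cases h4 : W2 c q.1.1
      · rw [if_pos h4]
        refine ENNReal.tsum_le_tsum fun r' => ?_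
        by_cases h5 : HW (A - 1) r' ∧ QQ c (jn q ++ ng r')
        · have h6 : QQ q.2.2.1 r' := by
            have hw : Walk (jn q ++ ng r') := by
              have := h5.2.walk
              rw [ng_append, ng_ng] at this
              have h7 := walk_suffix' this
              have h8 := ng_walk h7
              rwa [ng_append, ng_ng] at h8
            have e1 : jn q = (q.1.1 ++ q.2.1.1) ++ q.2.2.1 := by
              unfold jn
              rw [List.append_assoc]
            rw [e1] at hw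
            refine QQ_next (A := A) (bridge_append q.1.2 q.2.1.2.1) q.2.2.2 ?_ (by omega) h5.1 hw
            rw [← e1, jn_sp, h3.1]
          rw [if_pos h5, if_pos ⟨h5.1, h6⟩, jn_length]
        · rw [if_neg h5]
          exact zero_le
      · rw [if_neg h4]
        refine le_of_eq (ENNReal.tsum_eq_zero.2 fun r' => ?_)
        rw [if_neg]
        rintro ⟨h5, h6⟩
        apply h4
        have hf0 : q.2.1.1 ++ q.2.2.1 ≠ [] := by
          have := q.2.1.2.2.1
          simp [this]
        refine QQ.w2 (f := q.2.1.1 ++ q.2.2.1) hc q.1.2 (bridge_append q.2.1.2.1 q.2.2.2) hf0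
          (jn_bridge q) h6 ?_
        have h7 := jn_sp q
        unfold jn at h7
        rw [h7, h3.1]
        omega
    by_cases h4 : W2 c q.1.1
    · rw [if_pos h4] at hX2
      rw [if_pos ⟨h4, h3.1, h3.2.le⟩]
      exact mul_le_mul' le_rfl hX2
    · rw [if_neg h4] at hX2
      calc kz (zN N) q * X (jn q) ≤ kz (zN N) q * 0 := mul_le_mul' le_rfl hX2
        _ = 0 := mul_zero _
        _ ≤ _ := zero_le
  · rw [if_neg h3]
    exact zero_le

end Pool.Agent.Work.MP_376faf_co_cub
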