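import Pool.Agent.Work.MP_376faf_co_poly.FM2

/-! Theorem FM with two rays for strict ends: all bridges reach their last column only at the
end. -/

set_option autoImplicit false

namespace Pool.Agent.Work.MP_376faf_co_cub

open Pool.Agent.Work.MP_376faf_co_lower Pool.Agent.Work.MP_376faf_co_hw
open Pool.Agent.Work.MP_376faf_co_poly

/-- the last column is reached only at the end -/
def St (w : List Pt) : Prop := ∀ k < w.length, (pos w k).1 < (pos w w.length).1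

/-- narrow windows -/
def WinS (X1 T1 X2 T2 : ℕ) : Prop := 1 ≤ X1 ∧ 1 ≤ X2 ∧
  ((T1 ≤ 2 * X1 ∧ 2 * T1 ≤ 2 * X1 + X2 + 1 ∧ T1 ≤ X1 + X2) ∨
    (T2 ≤ 2 * X2 ∧ 2 * T2 < X1 + 2 * X2 + 2))

theorem WinS.win {X1 T1 X2 T2 : ℕ} (h : WinS X1 T1 X2 T2) : Win X1 T1 X2 T2 := by
  obtain ⟨h1, h2, h3 | h3⟩ := h
  · exact ⟨h1, h2, Or.inl ⟨by omega, by omega, by omega⟩⟩
  · exact ⟨h1, h2, Or.inr ⟨by omega, by omega⟩⟩

/-- `HQ` with a strict end -/
def HS (n X1 T1 X2 T2 : ℕ) (h : List Pt) : Prop := ∃ v t, Bridge v ∧ St v ∧ v.length = n ∧ Cut v t ∧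
  t ≤ n ∧ (X1 : ℤ) ≤ (pos v t).1 ∧ (pos v t).1 < T1 ∧ (X2 : ℤ) ≤ (pos v n).1 - (pos v t).1 ∧
  (pos v n).1 - (pos v t).1 < T2 ∧ h = fd v t ∧ Walk h ∧
  (∀ k ≤ n, 0 < k → (pos h k).1 = 0 → 0 < (pos h k).2) ∧
  ∀ k < n, (pos h k).1 = (pos h n).1 → (pos h k).2 < (pos h n).2

theorem HS.hq {n X1 T1 X2 T2 : ℕ} {h : List Pt} (hh : HS n X1 T1 X2 T2 h) :
    HQ n X1 T1 X2 T2 h := by
  obtain ⟨v, t, h1, _, h2⟩ := hh
  exact ⟨v, t, h1, h2⟩

/-- The double fold is a bridge with a strict end. -/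
theorem closureS {n X1 T1 X2 T2 : ℕ} (hW : WinS X1 T1 X2 T2) {w : List Pt} (hw : Bridge w)
    (hst : St w) (hn : w.length = n) {i j : ℕ} (hij : i < j) (hjn : j ≤ n)
    (himax : ∀ k ≤ i, (pos w k).1 ≤ (pos w i).1) (hiX : (X1 : ℤ) ≤ (pos w i).1)
    (hjr : ∀ k, j < k → k ≤ n → (pos w j).1 < (pos w k).1)
    (hjT : (X2 : ℤ) ≤ (pos w n).1 - (pos w j).1)
    (hi : HS n X1 T1 X2 T2 (fd w i)) (hj : HS n X1 T1 X2 T2 (fd w j)) :
    Bridge (fd2 w i j) ∧ St (fd2 w i j) := by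
  refine ⟨closure2 hW.win hw hn hij hjn himax hiX hjr hjT hi.hq hj.hq, ?_⟩
  obtain ⟨hX1, hX2, hWin⟩ := hW
  have hjl : j ≤ w.length := by omega
  have hxn : ∀ k < n, (pos w k).1 < (pos w n).1 := fun k hk => by
    have := hst k (by omega)
    rw [hn] at this
    exact this
  have hiR : ∀ k, i ≤ k → k ≤ n → 2 * (pos w i).1 - (pos w k).1 < T1 ∧
      (pos w n).1 - (pos w k).1 < T2 := by
    intro k hk hkn
    have := hi.hq.col (k := k) hkn
    rw [pos_fd_ge (by omega) hk, pos_fd_ge (by omega) (by omega)] at this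
    simp only at this
    omega
  have hjj : (pos w j).1 < T1 := by
    have := hj.hq.col (k := j) (by omega)
    rw [pos_fd_le hjl le_rfl] at this
    exact this.1
  have hii := hiR i le_rfl (by omega)
  have hij2 := hiR j hij.le hjn
  have hjn2 : j < n := by
    rcases Nat.eq_or_lt_of_le hjn with h5 | h5
    · subst h5
      omega
    · exact h5
  have hend := pos_fd2_ge (l := w) hij.le hjl hjn
  have hlen : (fd2 w i j).length = n := by rw [fd2_length hij.le hjl, hn]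
  intro k hk
  rw [hlen] at hk ⊢
  rw [hend]
  simp only
  have hjx := hxn j hjn2
  rcases Nat.le_total k i with h1 | h1
  · rw [pos_fd2_le hij.le hjl h1]
    have h3 := himax k h1
    omega
  · rcases Nat.le_total k j with h2 | h2
    · rw [pos_fd2_mid hij.le hjl h1 h2]
      simp only
      have h4 := hiR k h1 hk.le
      omega
    · rw [pos_fd2_ge hij.le hjl h2]
      simp only
      have h3 := hxn k hk
      omega

open Classical in
/-- marks of type R -/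
noncomputable def RMS (n X1 T1 X2 T2 : ℕ) (w : List Pt) : Finset ℕ := (Finset.range n).filter fun i =>
  (∀ k ≤ i, (pos w k).1 ≤ (pos w i).1) ∧ (pos w (i + 1)).1 ≠ (pos w i).1 ∧
    (X1 : ℤ) ≤ (pos w i).1 ∧ HS n X1 T1 X2 T2 (fd w i)

open Classical in
/-- marks of type L -/
noncomputable def LMS (n X1 T1 X2 T2 : ℕ) (w : List Pt) : Finset ℕ :=
  (Finset.range (n + 1)).filter fun j => (∀ k, j < k → k ≤ n → (pos w j).1 < (pos w k).1) ∧
    (X2 : ℤ) ≤ (pos w n).1 - (pos w j).1 ∧ HS n X1 T1 X2 T2 (fd w j)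

theorem finite_HS (n X1 T1 X2 T2 : ℕ) : {h : List Pt | HS n X1 T1 X2 T2 h}.Finite :=
  (finite_HQ n X1 T1 X2 T2).subset fun _ hh => HS.hq hh

theorem finite_SB (n : ℕ) : {l : List Pt | Bridge l ∧ St l ∧ l.length = n}.Finite :=
  (finite_BR n).subset fun _ hl => ⟨hl.1, hl.2.2⟩

open Classical in
/-- Theorem FM, two rays, strict ends. -/
theorem fms (n X1 T1 X2 T2 : ℕ) (hW : WinS X1 T1 X2 T2) : ∃ g : List Pt → List Pt,
    Set.InjOn g {h | HS n X1 T1 X2 T2 h} ∧ ∀ h, HS n X1 T1 X2 T2 h → Bridge (g h) ∧ St (g h) ∧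
      (g h).length = n ∧ ∃ i < n, fd (g h) i = h ∧ ∀ k ≤ i, (pos (g h) k).1 ≤ (pos (g h) i).1 := by
  have hO : ∀ h, h ∈ (finite_HS n X1 T1 X2 T2).toFinset ↔ HS n X1 T1 X2 T2 h := fun h => by simp
  have hE : ∀ w, w ∈ (finite_SB n).toFinset ↔ Bridge w ∧ St w ∧ w.length = n := fun w => by simp
  have hR : ∀ w i, i ∈ RMS n X1 T1 X2 T2 w ↔ i < n ∧ (∀ k ≤ i, (pos w k).1 ≤ (pos w i).1) ∧
      (pos w (i + 1)).1 ≠ (pos w i).1 ∧ (X1 : ℤ) ≤ (pos w i).1 ∧ HS n X1 T1 X2 T2 (fd w i) := by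
    intro w i
    unfold RMS
    rw [Finset.mem_filter, Finset.mem_range]
  have hL : ∀ w j, j ∈ LMS n X1 T1 X2 T2 w ↔ j ≤ n ∧ (∀ k, j < k → k ≤ n → (pos w j).1 < (pos w k).1) ∧
      (X2 : ℤ) ≤ (pos w n).1 - (pos w j).1 ∧ HS n X1 T1 X2 T2 (fd w j) := by
    intro w j
    unfold LMS
    rw [Finset.mem_filter, Finset.mem_range, Nat.lt_succ_iff]
  -- the unfolding
  have hex : ∀ h, HS n X1 T1 X2 T2 h → ∃ v t, Bridge v ∧ St v ∧ v.length = n ∧ Cut v t ∧ t ≤ n ∧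
      (X1 : ℤ) ≤ (pos v t).1 ∧ (pos v t).1 < T1 ∧ (X2 : ℤ) ≤ (pos v n).1 - (pos v t).1 ∧
      (pos v n).1 - (pos v t).1 < T2 ∧
      h = fd v t ∧ Walk h ∧ (∀ k ≤ n, 0 < k → (pos h k).1 = 0 → 0 < (pos h k).2) ∧
      ∀ k < n, (pos h k).1 = (pos h n).1 → (pos h k).2 < (pos h n).2 := fun h hh => hh
  have hX2 := hW.2.1
  choose! u t hut using hex
  have hF : Pool.Agent.Work.MP_376faf_co_log.FSys (finite_HS n X1 T1 X2 T2).toFinset
      (finite_SB n).toFinset (RMS n X1 T1 X2 T2) (LMS n X1 T1 X2 T2) fd sgn fd2 u t := by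
    refine ⟨?_, ?_, ?_, ?_, ?_⟩
    · intro w hw i hi j hj hij
      rw [hE] at hw
      rw [hR] at hi
      rw [hL] at hj
      obtain ⟨hwb, hws, hwn⟩ := hw
      obtain ⟨hin, himax, hih, hiX, hiH⟩ := hi
      obtain ⟨hjn, hjr, hjT, hjH⟩ := hj
      have hjl : j ≤ w.length := by omega
      obtain ⟨hbr, hbs⟩ := closureS hW hwb hws hwn hij hjn himax hiX hjr hjT hiH hjH
      have hlen : (fd2 w i j).length = n := by rw [fd2_length hij.le hjl, hwn]
      have e1 := fd_fd2_left hij.le hjl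
      have e2 := fd_fd2_right hij.le hjl
      refine ⟨(hE _).2 ⟨hbr, hbs, hlen⟩, (hR _ _).2 ⟨hin, ?_, ?_, ?_, ?_⟩, (hL _ _).2 ⟨hjn, ?_, ?_, ?_⟩,
        fd2_fd2 hij.le hjl, e1, e2, sgn_fd2 hij hjl hih⟩
      · intro k hk
        rw [pos_fd2_le hij.le hjl hk, pos_fd2_le hij.le hjl le_rfl]
        exact himax k hk
      · rw [pos_fd2_mid hij.le hjl (by omega) (by omega), pos_fd2_le hij.le hjl le_rfl]
        simp only
        omega
      · rw [pos_fd2_le hij.le hjl le_rfl]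
        exact hiX
      · rw [e1]
        exact hjH
      · intro k hk hkn
        rw [pos_fd2_ge hij.le hjl hk.le, pos_fd2_ge hij.le hjl le_rfl]
        simp only
        have := hjr k hk hkn
        omega
      · rw [pos_fd2_ge hij.le hjl hjn, pos_fd2_ge hij.le hjl le_rfl]
        simp only
        omega
      · rw [e2]
        exact hiH
    · intro w _ j _
      rcases sgn_cases w j with h | h <;> rw [h] <;> norm_num
    · intro w _ j _
      rcases sgn_cases w j with h | h <;> rw [h] <;> norm_num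
    · intro w _ i hi _
      rw [hR] at hi
      exact sgn_max w i hi.2.1
    · intro h hh
      rw [hO] at hh
      obtain ⟨hv, hvs, hvn, hc, htn, h1, h2, h3, h3', h4, h5, h6, h7⟩ := hut h hh
      have htn2 : t h < n := by
        rcases Nat.eq_or_lt_of_le htn with h7 | h7
        · rw [h7] at h3
          omega
        · exact h7
      refine ⟨(hE _).2 ⟨hv, hvs, hvn⟩, (hR _ _).2 ⟨htn2, hc.1, ?_, h1, ?_⟩,
        (hL _ _).2 ⟨htn, ?_, h3, ?_⟩, h4.symm⟩
      · exact (hc.2 (t h + 1) (by omega) (by omega)).ne'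
      · rw [← h4]
        exact hh
      · intro k hk hkn
        exact hc.2 k hk (by omega)
      · rw [← h4]
        exact hh
  obtain ⟨g, hg1, hg2⟩ := Pool.Agent.Work.MP_376faf_co_log.ferm_inj hF
  refine ⟨g, ?_, ?_⟩
  · intro a ha b hb hab
    exact hg1 (by simpa using ha) (by simpa using hb) hab
  · intro h hh
    obtain ⟨h1, i, hi, h2⟩ := hg2 h ((hO h).2 hh)
    rw [hE] at h1
    rw [hR] at hi
    exact ⟨h1.1, h1.2.1, h1.2.2, i, hi.1, h2, hi.2.1⟩

end Pool.Agent.Work.MP_376faf_co_cub
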