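import Pool.Agent.Work.MP_376faf_co_hw.PolyB
import Pool.Agent.Work.MP_376faf_co_hw.Crit

/-! A few general lemmas of the earlier chains, copied to keep the import closure small. -/

set_option autoImplicit false

namespace Pool.Agent.Work.MP_376faf_co_cub

open Pool.Agent.Work.MP_376faf_co_lower Pool.Agent.Work.MP_376faf_co_hw
open scoped ENNReal

theorem FinalHW.inv_eq {μ : ℝ} (hμ : 1 ≤ μ) : (ENNReal.ofReal μ)⁻¹ = ENNReal.ofReal μ⁻¹ := by
  rw [ENNReal.ofReal_inv_of_pos (by linarith)]

theorem half_pos_le {l : List Pt} (h : Half l) : ∀ i ≤ l.length, (pos l i).1 ≤ i := by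
  intro i
  induction i with
  | zero => simp
  | succ i ih =>
    intro hi
    have h1 := ih (by omega)
    rw [pos_succ l (by omega)]
    have h2 : Un l[i] := h.1.1 _ (List.getElem_mem _)
    unfold Un at h2
    have h3 := abs_nonneg (l[i]).2
    have h4 := le_abs_self (l[i]).1
    simp only [Prod.fst_add]
    push_cast
    omega

/-- the logarithm -/
def lg (n : ℕ) : ℕ := Nat.log 2 n + 1

theorem lt_two_pow_lg (n : ℕ) : n < 2 ^ lg n := Nat.lt_pow_succ_log_self (by norm_num) n

theorem lg_le_log {n : ℕ} (hn : 2 ≤ n) : (lg n : ℝ) ≤ 3 * Real.log n := by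
  have hn0 : (0:ℝ) < n := by exact_mod_cast (by omega : 0 < n)
  have h1 : ((2:ℝ)) ^ Nat.log 2 n ≤ n := by
    exact_mod_cast Nat.pow_log_le_self 2 (x := n) (by omega)
  have h2 := Real.log_le_log (by positivity) h1
  rw [Real.log_pow] at h2
  have h3 := Real.log_two_gt_d9
  have h4 : Real.log 2 ≤ Real.log n := Real.log_le_log (by norm_num) (by exact_mod_cast hn)
  have h0 : (0:ℝ) ≤ (Nat.log 2 n : ℝ) := Nat.cast_nonneg _
  unfold lg
  push_cast
  nlinarith

end Pool.Agent.Work.MP_376faf_co_cub
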