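import Pool.Agent.Work.MP_376faf_co_cub.Chain
import Pool.Agent.Work.MP_376faf_co_cub.Tools

/-! From the blocks to walks, bridges and polygons of every length. -/

set_option autoImplicit false

namespace Pool.Agent.Work.MP_376faf_co_cub

open Pool.Agent.Work.MP_376faf_co_lower Pool.Agent.Work.MP_376faf_co_hw
open Pool.Agent.Work.MP_376faf_co_neps Pool.Agent.Work.MP_376faf_co_log
open Filter Topology
open scoped ENNReal

/-- number of half-plane walks of length `n` -/
noncomputable def hh (n : ℕ) : ℝ≥0∞ := mass 1 (fun l => Half l ∧ l.length = n)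

theorem coeff_Bz (n : ℕ) : PowerSeries.coeff n Bz = (bn n : ℝ≥0∞) := by
  classical
  have h := mass_bn 1 n
  rw [one_pow, mul_one] at h
  rw [← h]
  unfold Bz S mass
  rw [PowerSeries.coeff_mk]
  have h1 : (fun b : Br => if b.1.length = n then (1 : ℝ≥0∞) else 0) =
      Set.indicator {b : Br | b.1.length = n} (fun _ => 1) := by
    funext b
    simp only [Set.indicator_apply, Set.mem_ofPred_eq]
  rw [h1, ← tsum_subtype]
  rw [← (Equiv.subtypeSubtypeEquivSubtypeInter (fun l : List Pt => Bridge l)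
    (fun l => l.length = n)).tsum_eq]
  simp only [one_pow]
  rfl

theorem coeff_Hz {n M : ℕ} (h : n ≤ M) : hh n ≤ PowerSeries.coeff n (Hz M) := by
  classical
  unfold hh Hz S mass
  rw [PowerSeries.coeff_mk]
  refine tsum_le_inj (fun l : {l : List Pt // Half l ∧ l.length = n} => l.1)
    Subtype.val_injective ?_
  intro l
  have h1 : HW M l.1 := by
    refine ⟨l.2.1, fun i hi => ?_⟩
    have h2 := half_pos_le l.2.1 i hi
    have h3 := l.2.2
    have h4 : (i : ℤ) ≤ M := by exact_mod_cast (by omega : i ≤ M)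
    linarith
  simp only [one_pow]
  rw [if_pos l.2.2, if_pos h1]

theorem coeff_Bz_pow (k n : ℕ) :
    PowerSeries.coeff n (Bz ^ k) ≤ ((n + 1 : ℕ) : ℝ≥0∞) ^ k * (bn n : ℝ≥0∞) := by
  induction k generalizing n with
  | zero =>
    rw [pow_zero, pow_zero, one_mul, PowerSeries.coeff_one]
    split_ifs with h
    · exact_mod_cast bn_pos n
    · exact zero_le
  | succ k ih =>
    rw [pow_succ, PowerSeries.coeff_mul]
    have h1 : ∀ p ∈ Finset.HasAntidiagonal.antidiagonal n,
        PowerSeries.coeff p.1 (Bz ^ k) * PowerSeries.coeff p.2 Bz ≤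
          ((n + 1 : ℕ) : ℝ≥0∞) ^ k * (bn n : ℝ≥0∞) := by
      intro p hp
      rw [Finset.HasAntidiagonal.mem_antidiagonal] at hp
      rw [coeff_Bz]
      calc PowerSeries.coeff p.1 (Bz ^ k) * (bn p.2 : ℝ≥0∞)
          ≤ (((p.1 + 1 : ℕ) : ℝ≥0∞) ^ k * (bn p.1 : ℝ≥0∞)) * (bn p.2 : ℝ≥0∞) :=
            mul_le_mul' (ih p.1) le_rfl
        _ = ((p.1 + 1 : ℕ) : ℝ≥0∞) ^ k * ((bn p.1 * bn p.2 : ℕ) : ℝ≥0∞) := by
            push_cast
            ring
        _ ≤ ((n + 1 : ℕ) : ℝ≥0∞) ^ k * (bn n : ℝ≥0∞) := by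
            refine mul_le_mul' (pow_le_pow_left' ?_ k) ?_
            · exact_mod_cast (by omega : p.1 + 1 ≤ n + 1)
            · have := bn_mul p.1 p.2
              rw [hp] at this
              exact_mod_cast this
    refine (Finset.sum_le_sum h1).trans (le_of_eq ?_)
    rw [Finset.sum_const, Finset.Nat.card_antidiagonal, nsmul_eq_mul, pow_succ]
    ring

theorem cc_mul_eq (a b : ℝ≥0∞) : cc (a * b) = cc a * cc b := by
  unfold cc
  exact map_mul _ a b

theorem cc_le {a b : ℝ≥0∞} (h : a ≤ b) : Le (cc a) (cc b) := by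
  intro n
  unfold cc
  rw [PowerSeries.coeff_C, PowerSeries.coeff_C]
  split_ifs
  · exact h
  · exact le_rfl

theorem coeff_cc_mul (a : ℝ≥0∞) (p : PS) (n : ℕ) :
    PowerSeries.coeff n (cc a * p) = a * PowerSeries.coeff n p := by
  unfold cc
  exact PowerSeries.coeff_C_mul n p a

/-- the constant of the blocks -/
def KB : ℝ := 30000

theorem iter (k : ℕ) : Le (Hz (2 ^ k - 1))
    (cc (ENNReal.ofReal (Real.exp (KB * (k : ℝ) ^ 3))) * Bz ^ k) := by
  induction k with
  | zero =>
    have h := Hz_zero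
    simpa [cc] using h
  | succ k ih =>
    have h1 := block k
    refine h1.trans ?_
    have h2 : Le (cc (ENNReal.ofReal (Real.exp (30000 * ((k : ℝ) + 1) ^ 2))) *
        (Hz (2 ^ k - 1) * Bz))
        (cc (ENNReal.ofReal (Real.exp (30000 * ((k : ℝ) + 1) ^ 2))) *
        ((cc (ENNReal.ofReal (Real.exp (KB * (k : ℝ) ^ 3))) * Bz ^ k) * Bz)) :=
      (Le.refl _).mul (ih.mul (Le.refl _))
    refine h2.trans ?_
    have h3 : cc (ENNReal.ofReal (Real.exp (30000 * ((k : ℝ) + 1) ^ 2))) *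
        ((cc (ENNReal.ofReal (Real.exp (KB * (k : ℝ) ^ 3))) * Bz ^ k) * Bz) =
        cc (ENNReal.ofReal (Real.exp (30000 * ((k : ℝ) + 1) ^ 2 + KB * (k : ℝ) ^ 3))) *
          Bz ^ (k + 1) := by
      rw [Real.exp_add, ENNReal.ofReal_mul (Real.exp_pos _).le, cc_mul_eq, pow_succ]
      ring
    rw [h3]
    refine Le.mul (cc_le (ENNReal.ofReal_le_ofReal (Real.exp_le_exp.2 ?_))) (Le.refl _)
    have hk : (0:ℝ) ≤ (k : ℝ) := Nat.cast_nonneg _
    unfold KB
    push_cast
    nlinarith [mul_nonneg hk hk]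

/-- half-plane walks against bridges, any scale -/
theorem hh_le {n k : ℕ} (h : n < 2 ^ k) : hh n ≤ ENNReal.ofReal (Real.exp (KB * (k : ℝ) ^ 3)) *
    (((n + 1 : ℕ) : ℝ≥0∞) ^ k * (bn n : ℝ≥0∞)) := by
  refine (coeff_Hz (M := 2 ^ k - 1) (by omega)).trans ((iter k n).trans ?_)
  rw [coeff_cc_mul]
  exact mul_le_mul' le_rfl (coeff_Bz_pow k n)

theorem card_le_hh (n : ℕ) :
    ((Nat.card {l : List Pt // Half l ∧ l.length = n} : ℕ) : ℝ≥0∞) ≤ hh n := by
  unfold hh mass
  rcases finite_or_infinite {l : List Pt // Half l ∧ l.length = n} with hf | hi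
  · have : Fintype {l : List Pt // Half l ∧ l.length = n} := Fintype.ofFinite _
    simp only [one_pow]
    rw [tsum_fintype, Finset.sum_const, Finset.card_univ, nsmul_eq_mul, mul_one,
      Nat.card_eq_fintype_card]
  · rw [Nat.card_eq_zero_of_infinite]
    simp

/-- size of the corrections -/
theorem corr {n k : ℕ} (hn : 2 ≤ n) (hk : (k : ℝ) ≤ 6 * Real.log n) {m : ℕ} (hm : m ≤ n ^ 2) :
    Real.exp (KB * (k : ℝ) ^ 3) * (m : ℝ) ^ k ≤
      Real.exp ((216 * KB + 18) * (Real.log n) ^ 3) := by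
  have hn2 : (2:ℝ) ≤ n := by exact_mod_cast hn
  have hn0 : (0:ℝ) < n := by linarith
  have hL : Real.log 2 ≤ Real.log n := Real.log_le_log (by norm_num) hn2
  have hl2 := Real.log_two_gt_d9
  set L := Real.log n with hLdef
  have hL0 : 0 < L := by linarith
  have hk0 : (0:ℝ) ≤ (k:ℝ) := Nat.cast_nonneg _
  have h1 : (m:ℝ) ^ k ≤ Real.exp (k * (2 * L)) := by
    have h2 : (m:ℝ) ≤ Real.exp (2 * L) := by
      have h3 : Real.exp (2 * L) = (n:ℝ) ^ 2 := by
        rw [mul_comm, Real.exp_mul, hLdef, Real.exp_log hn0]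
        exact_mod_cast Real.rpow_natCast (n:ℝ) 2
      rw [h3]
      exact_mod_cast hm
    calc (m:ℝ) ^ k ≤ Real.exp (2 * L) ^ k := pow_le_pow_left₀ (Nat.cast_nonneg _) h2 k
      _ = _ := by rw [← Real.exp_nat_mul]
  calc Real.exp (KB * (k : ℝ) ^ 3) * (m : ℝ) ^ k
      ≤ Real.exp (KB * (k : ℝ) ^ 3) * Real.exp (k * (2 * L)) :=
        mul_le_mul_of_nonneg_left h1 (Real.exp_pos _).le
    _ = Real.exp (KB * (k : ℝ) ^ 3 + k * (2 * L)) := (Real.exp_add _ _).symm
    _ ≤ _ := by
      refine Real.exp_le_exp.2 ?_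
      have h3 : (k:ℝ) ^ 3 ≤ (6 * L) ^ 3 := pow_le_pow_left₀ hk0 hk 3
      have h4 : (k:ℝ) * (2 * L) ≤ 6 * L * (2 * L) := by gcongr
      have h5 : 12 * L ^ 2 ≤ 18 * L ^ 3 := by
        have : 0 ≤ L ^ 2 := by positivity
        nlinarith
      have h6 : KB * (k:ℝ) ^ 3 ≤ KB * (6 * L) ^ 3 := by
        unfold KB
        linarith
      nlinarith

/-- half-plane walks against bridges of the same length -/
theorem half_le_bridge : ∃ C : ℝ, 0 < C ∧ ∀ n : ℕ, 2 ≤ n →
    (Nat.card {l : List Pt // Half l ∧ l.length = n} : ℝ) ≤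
      Real.exp (C * (Real.log n) ^ 3) * bn n := by
  refine ⟨216 * KB + 18, by unfold KB; norm_num, fun n hn => ?_⟩
  have h1 := (card_le_hh n).trans (hh_le (lt_two_pow_lg n))
  have hL : 0 ≤ Real.log n := Real.log_natCast_nonneg n
  have hk : (lg n : ℝ) ≤ 6 * Real.log n := by
    have := lg_le_log hn
    linarith
  have h2 := corr (m := n + 1) hn hk (by nlinarith)
  have h3 : ENNReal.ofReal (Real.exp (KB * (lg n : ℝ) ^ 3)) *
      (((n + 1 : ℕ) : ℝ≥0∞) ^ lg n * (bn n : ℝ≥0∞)) =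
      ENNReal.ofReal (Real.exp (KB * (lg n : ℝ) ^ 3) * ((n + 1 : ℕ) : ℝ) ^ lg n * bn n) := by
    rw [ENNReal.ofReal_mul (by positivity), ENNReal.ofReal_mul (Real.exp_pos _).le,
      ENNReal.ofReal_pow (Nat.cast_nonneg _), ENNReal.ofReal_natCast, ENNReal.ofReal_natCast,
      mul_assoc]
  rw [h3, ← ENNReal.ofReal_natCast, ENNReal.ofReal_le_ofReal_iff (by positivity)] at h1
  exact h1.trans (mul_le_mul_of_nonneg_right h2 (Nat.cast_nonneg _))

/-- fixed length splitting -/
theorem walk_fix (n : ℕ) : mass 1 (fun l => Walk l ∧ l.length = n) ≤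
    ∑ j ∈ Finset.range (n + 1), hh (j + 1) * hh (n - j) := by
  choose j hj using fun l : {l : List Pt // Walk l ∧ l.length = n} => walk_split l.2.1
  have h0 : ∑ j ∈ Finset.range (n + 1), hh (j + 1) * hh (n - j) =
      ∑' i : Fin (n + 1), ∑' p : {l : List Pt // Half l ∧ l.length = (i : ℕ) + 1} ×
        {l : List Pt // Half l ∧ l.length = n - (i : ℕ)}, (1 : ℝ≥0∞) := by
    rw [tsum_fintype, Finset.sum_range]
    refine Finset.sum_congr rfl fun i _ => ?_
    unfold hh mass
    rw [← tsum_mul]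
    simp
  rw [h0, ← ENNReal.tsum_sigma' (f := fun _ : Σ i : Fin (n + 1),
    {l : List Pt // Half l ∧ l.length = (i : ℕ) + 1} ×
        {l : List Pt // Half l ∧ l.length = n - (i : ℕ)} => (1 : ℝ≥0∞))]
  unfold mass
  have hjn : ∀ l : {l : List Pt // Walk l ∧ l.length = n}, j l ≤ n := fun l => by
    have h1 := (hj l).1
    have h2 := l.2.2
    omega
  refine tsum_le_inj (fun l : {l : List Pt // Walk l ∧ l.length = n} =>
    (⟨⟨j l, by have := hjn l; omega⟩, (⟨(1, 0) :: rv (l.1.take (j l)), (hj l).2.1, ?_⟩,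
      ⟨l.1.drop (j l), (hj l).2.2, ?_⟩)⟩ : Σ i : Fin (n + 1),
    {l : List Pt // Half l ∧ l.length = (i : ℕ) + 1} ×
        {l : List Pt // Half l ∧ l.length = n - (i : ℕ)})) ?_ ?_
  · have h1 := hjn l
    have h2 := l.2.2
    simp only [List.length_cons, rv_length, List.length_take]
    omega
  · have h2 := l.2.2
    simp only [List.length_drop]
    omega
  · intro a b hab
    have h1 : rv (a.1.take (j a)) = rv (b.1.take (j b)) := by
      have := congrArg (fun t : Σ i : Fin (n + 1),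
        {l : List Pt // Half l ∧ l.length = (i : ℕ) + 1} ×
          {l : List Pt // Half l ∧ l.length = n - (i : ℕ)} => t.2.1.1) hab
      simp only [List.cons.injEq, true_and] at this
      exact this
    have h2 : a.1.drop (j a) = b.1.drop (j b) :=
      congrArg (fun t : Σ i : Fin (n + 1),
        {l : List Pt // Half l ∧ l.length = (i : ℕ) + 1} ×
          {l : List Pt // Half l ∧ l.length = n - (i : ℕ)} => t.2.2.1) hab
    have h1 := rv_inj h1
    apply Subtype.ext
    rw [← List.take_append_drop (j a) a.1, ← List.take_append_drop (j b) b.1, h1, h2]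
  · intro a
    simp

/-- bridges: upper bound -/
theorem bn_le {μ : ℝ} (hμ : 1 ≤ μ) (hu : ∀ t, uu (ENNReal.ofReal μ)⁻¹ t ≤ 1) (n : ℕ) :
    (bn n : ℝ) ≤ (n + 1) * μ ^ n := by
  have hμ0 : 0 < μ := by linarith
  set x := (ENNReal.ofReal μ)⁻¹ with hx
  have h1 : mass x (fun l => Bridge l ∧ l.length = n) ≤
      ∑' i : Finset.range (n + 1), mass x (BridgeW (i : ℕ)) := by
    unfold mass
    refine (sigma_ge (fun i : Finset.range (n + 1) => fun l => BridgeW (i : ℕ) l)
      (fun l => Bridge l ∧ l.length = n) ?_ (fun l => x ^ l.length))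
    rintro l ⟨h1, h2⟩
    have h3 := half_pos_le h1.half l.length le_rfl
    rw [pos_len] at h3
    have h4 : 0 ≤ l.sum.1 := by
      rcases Nat.eq_zero_or_pos l.length with h5 | h5
      · rw [List.eq_nil_of_length_eq_zero h5]
        simp
      · have := (h1.2 l.length h5 le_rfl).1
        rw [pos_len] at this
        exact this.le
    refine ⟨⟨l.sum.1.toNat, ?_⟩, h1, ?_⟩
    · rw [Finset.mem_range]
      omega
    · simp only
      omega
  rw [mass_bn] at h1
  have h2 : ∑' i : Finset.range (n + 1), mass x (BridgeW (i : ℕ)) ≤ ((n + 1 : ℕ) : ℝ≥0∞) := by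
    rw [Finset.tsum_subtype (Finset.range (n + 1)) (fun i => mass x (BridgeW i))]
    calc ∑ i ∈ Finset.range (n + 1), mass x (BridgeW i)
        ≤ ∑ i ∈ Finset.range (n + 1), (1 : ℝ≥0∞) := Finset.sum_le_sum fun i _ => hu i
      _ = _ := by simp
  have h3 := h1.trans h2
  rw [hx, FinalHW.inv_eq hμ, ← ENNReal.ofReal_pow (by positivity), ← ENNReal.ofReal_natCast,
    ← ENNReal.ofReal_natCast, ← ENNReal.ofReal_mul (Nat.cast_nonneg _),
    ENNReal.ofReal_le_ofReal_iff (by positivity), inv_pow, ← div_eq_mul_inv,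
    div_le_iff₀ (by positivity)] at h3
  push_cast at h3
  exact h3

/-- walks against bridges -/
theorem walks_le_bridge (n : ℕ) (hn : 2 ≤ n) : (Nat.card (WalkFun n) : ℝ) ≤
    (n + 1) * Real.exp (2 * ((216 * KB + 18) * (Real.log n) ^ 3)) * bn (n + 1) := by
  have h1 := walk_card_le n 1
  rw [one_pow, mul_one] at h1
  have h2 := h1.trans (walk_fix n)
  set k := lg (n + 1) with hk
  have hn2 : (2:ℝ) ≤ n := by exact_mod_cast hn
  have hL : Real.log 2 ≤ Real.log n := Real.log_le_log (by norm_num) hn2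
  have hl2 := Real.log_two_gt_d9
  have hk6 : (k:ℝ) ≤ 6 * Real.log n := by
    have h3 := lg_le_log (n := n + 1) (by omega)
    rw [← hk] at h3
    have h4 : Real.log ((n + 1 : ℕ) : ℝ) ≤ 2 * Real.log n := by
      have h5 : 2 * Real.log n = Real.log ((n:ℝ) ^ 2) := by rw [Real.log_pow]; push_cast; ring
      rw [h5]
      refine Real.log_le_log (by positivity) ?_
      push_cast
      nlinarith
    linarith
  set E : ℝ := Real.exp ((216 * KB + 18) * (Real.log n) ^ 3) with hE
  have hE0 : 0 < E := Real.exp_pos _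
  have hb : ∀ m ≤ n + 1, hh m ≤ ENNReal.ofReal (E * bn m) := by
    intro m hm
    have h3 := hh_le (n := m) (k := k) (lt_of_le_of_lt hm (lt_two_pow_lg (n + 1)))
    refine h3.trans ?_
    have h4 := corr (m := m + 1) hn hk6 (by nlinarith)
    have h5 : ENNReal.ofReal (Real.exp (KB * (k : ℝ) ^ 3)) *
        (((m + 1 : ℕ) : ℝ≥0∞) ^ k * (bn m : ℝ≥0∞)) =
        ENNReal.ofReal (Real.exp (KB * (k : ℝ) ^ 3) * ((m + 1 : ℕ) : ℝ) ^ k * bn m) := by
      rw [ENNReal.ofReal_mul (by positivity), ENNReal.ofReal_mul (Real.exp_pos _).le,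
        ENNReal.ofReal_pow (Nat.cast_nonneg _), ENNReal.ofReal_natCast, ENNReal.ofReal_natCast,
        mul_assoc]
    rw [h5]
    exact ENNReal.ofReal_le_ofReal (mul_le_mul_of_nonneg_right h4 (Nat.cast_nonneg _))
  have h3 : ∑ j ∈ Finset.range (n + 1), hh (j + 1) * hh (n - j) ≤
      ENNReal.ofReal ((n + 1) * (E * E * bn (n + 1))) := by
    have h4 : ∀ j ∈ Finset.range (n + 1), hh (j + 1) * hh (n - j) ≤
        ENNReal.ofReal (E * E * bn (n + 1)) := by
      intro j hj
      rw [Finset.mem_range] at hj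
      refine (mul_le_mul' (hb (j + 1) (by omega)) (hb (n - j) (by omega))).trans ?_
      rw [← ENNReal.ofReal_mul (by positivity)]
      refine ENNReal.ofReal_le_ofReal ?_
      have h5 : (bn (j + 1) : ℝ) * bn (n - j) ≤ bn (n + 1) := by
        have h6 := bn_mul (j + 1) (n - j)
        rw [show j + 1 + (n - j) = n + 1 by omega] at h6
        exact_mod_cast h6
      calc E * (bn (j + 1) : ℝ) * (E * bn (n - j)) = E * E * (bn (j + 1) * bn (n - j)) := by ring
        _ ≤ _ := mul_le_mul_of_nonneg_left h5 (by positivity)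
    refine (Finset.sum_le_sum h4).trans (le_of_eq ?_)
    rw [Finset.sum_const, Finset.card_range, nsmul_eq_mul,
      ENNReal.ofReal_mul (p := (n:ℝ) + 1) (by positivity)]
    congr 1
    rw [← ENNReal.ofReal_natCast]
    push_cast
    rfl
  have h4 := h2.trans h3
  rw [← ENNReal.ofReal_natCast, ENNReal.ofReal_le_ofReal_iff (by positivity)] at h4
  refine h4.trans (le_of_eq ?_)
  have h5 : Real.exp (2 * ((216 * KB + 18) * (Real.log n) ^ 3)) = E * E := by
    rw [hE, ← Real.exp_add]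
    congr 1
    ring
  rw [h5]
  ring

theorem cub_bounds : ∃ μ B : ℝ, Tendsto (fun n : ℕ => (Nat.card (WalkFun n) : ℝ) ^ (1 / (n : ℝ)))
      atTop (𝓝 μ) ∧ 0 < B ∧ ∀ n : ℕ, 2 ≤ n →
      (Nat.card (WalkFun n) : ℝ) ≤ μ ^ n * Real.exp (B * (Real.log n) ^ 3) ∧
      μ ^ (2 * n) * Real.exp (-(B * (Real.log n) ^ 3)) ≤
        (Nat.card (PolyFun n) : ℝ) / (4 * (n:ℝ)) := by
  obtain ⟨μ, hμ, hT, hc⟩ := exists_mu
  have hu := uu_le_one hμ hT
  have hμ0 : 0 < μ := by linarith
  have hlμ : 0 ≤ Real.log μ := Real.log_nonneg hμ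
  obtain ⟨D, hD⟩ : ∃ D : ℝ, D = 2 * (216 * KB + 18) := ⟨_, rfl⟩
  have hD0 : 0 < D := by rw [hD]; unfold KB; norm_num
  refine ⟨μ, 8 * D + 24 * Real.log μ + 100, hT, by positivity, fun n hn => ?_⟩
  have hn2 : (2:ℝ) ≤ n := by exact_mod_cast hn
  have hn0 : (0:ℝ) < n := by linarith
  have hL : Real.log 2 ≤ Real.log n := Real.log_le_log (by norm_num) hn2
  have hl2 := Real.log_two_gt_d9
  set L := Real.log n with hLdef
  have hL0 : 0 < L := by linarith
  have hL3 : L ≤ 3 * L ^ 3 := by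
    have h1 : 0.48 ≤ L ^ 2 := by nlinarith
    nlinarith
  have hL30 : 1 ≤ 4 * L ^ 3 := by
    have h1 : 0.48 ≤ L ^ 2 := by nlinarith
    nlinarith
  have hLp : 0 ≤ L ^ 3 := by positivity
  have hnL : (n:ℝ) = Real.exp L := (Real.exp_log hn0).symm
  have hexp : Real.exp (2 * L) = (n:ℝ) ^ 2 := by
    rw [mul_comm, Real.exp_mul, hLdef, Real.exp_log hn0]
    exact_mod_cast Real.rpow_natCast (n:ℝ) 2
  have h2 : (n:ℝ) + 1 ≤ Real.exp (2 * L) := by rw [hexp]; nlinarith
  have h2' : (n:ℝ) + 2 ≤ Real.exp (2 * L) := by rw [hexp]; nlinarith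
  refine ⟨?_, ?_⟩
  · have h1 := walks_le_bridge n hn
    have h3 := bn_le hμ hu (n + 1)
    push_cast at h3
    rw [← hLdef] at h1
    have e1 : 2 * ((216 * KB + 18) * L ^ 3) = D * L ^ 3 := by rw [hD]; ring
    rw [e1] at h1
    calc (Nat.card (WalkFun n) : ℝ) ≤ (n + 1) * Real.exp (D * L ^ 3) * bn (n + 1) := h1
      _ ≤ Real.exp (2 * L) * Real.exp (D * L ^ 3) * (Real.exp (2 * L) * μ ^ (n + 1)) := by
          refine mul_le_mul (mul_le_mul_of_nonneg_right h2 (Real.exp_pos _).le) ?_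
            (Nat.cast_nonneg _) (by positivity)
          refine h3.trans (mul_le_mul_of_nonneg_right ?_ (by positivity))
          linarith
      _ = μ ^ n * Real.exp (4 * L + D * L ^ 3 + Real.log μ) := by
          rw [Real.exp_add, Real.exp_add, Real.exp_log hμ0, pow_succ,
            show 4 * L = 2 * L + 2 * L by ring, Real.exp_add]
          ring
      _ ≤ _ := by
          refine mul_le_mul_of_nonneg_left (Real.exp_le_exp.2 ?_) (by positivity)
          have h4 : Real.log μ * 1 ≤ Real.log μ * (4 * L ^ 3) :=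
            mul_le_mul_of_nonneg_left hL30 hlμ
          nlinarith
  · -- polygons
    obtain ⟨m, rfl⟩ : ∃ m, n = m + 1 := ⟨n - 1, by omega⟩
    have hm : 1 ≤ m := by omega
    have hmr : (1:ℝ) ≤ m := by exact_mod_cast hm
    have hp := poly_ge hm
    set P : ℝ := (Nat.card (PolyFun (m + 1)) : ℝ) / (4 * ((m + 1 : ℕ) : ℝ)) with hP
    have hP0 : 0 ≤ P := by positivity
    -- bridges of length `m`
    have hb : μ ^ m * Real.exp (-(D * L ^ 3 + 4 * L + 2 * Real.log μ)) ≤ (bn m : ℝ) := by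
      rcases Nat.lt_or_ge m 3 with h3 | h3
      · -- small cases
        have hb1 : (1:ℝ) ≤ bn m := by exact_mod_cast bn_pos m
        refine le_trans ?_ hb1
        have h4 : μ ^ m = Real.exp (m * Real.log μ) := by
          rw [Real.exp_nat_mul, Real.exp_log hμ0]
        rw [h4, ← Real.exp_add]
        refine Real.exp_le_one_iff.mpr ?_
        have h5 : (m:ℝ) ≤ 2 := by exact_mod_cast (by omega : m ≤ 2)
        have h6 : 0 ≤ D * L ^ 3 := by positivity
        nlinarith
      · have h4 := walks_le_bridge (m - 1) (by omega)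
        rw [Nat.sub_add_cancel (by omega : 1 ≤ m)] at h4
        have h5 := hc (m - 1)
        have h6 : ((m - 1 : ℕ) : ℝ) = (m:ℝ) - 1 := by
          rw [Nat.cast_sub (by omega : 1 ≤ m)]
          push_cast
          ring
        have h7 : Real.log ((m - 1 : ℕ) : ℝ) ≤ L := by
          rw [hLdef]
          refine Real.log_le_log ?_ ?_
          · rw [h6]
            have : (3:ℝ) ≤ m := by exact_mod_cast h3
            linarith
          · rw [h6]; push_cast; linarith
        have h70 : 0 ≤ Real.log ((m - 1 : ℕ) : ℝ) := Real.log_natCast_nonneg _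
        have h8 : 2 * ((216 * KB + 18) * Real.log ((m - 1 : ℕ) : ℝ) ^ 3) ≤ D * L ^ 3 := by
          have h9 : Real.log ((m - 1 : ℕ) : ℝ) ^ 3 ≤ L ^ 3 := pow_le_pow_left₀ h70 h7 3
          calc 2 * ((216 * KB + 18) * Real.log ((m - 1 : ℕ) : ℝ) ^ 3)
              = D * Real.log ((m - 1 : ℕ) : ℝ) ^ 3 := by rw [hD]; ring
            _ ≤ _ := mul_le_mul_of_nonneg_left h9 hD0.le
        have h9 : μ ^ (m - 1) ≤ Real.exp (2 * L) * Real.exp (D * L ^ 3) * bn m := by
          refine h5.trans (h4.trans ?_)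
          refine mul_le_mul_of_nonneg_right ?_ (Nat.cast_nonneg _)
          refine mul_le_mul ?_ (Real.exp_le_exp.2 h8) (Real.exp_pos _).le (Real.exp_pos _).le
          rw [h6]
          push_cast at h2
          linarith
        have h10 : μ ^ m = μ ^ (m - 1) * μ := by
          conv_lhs => rw [← Nat.sub_add_cancel (by omega : 1 ≤ m), pow_succ]
        calc μ ^ m * Real.exp (-(D * L ^ 3 + 4 * L + 2 * Real.log μ))
            = μ ^ (m - 1) * Real.exp (-(D * L ^ 3 + 4 * L + Real.log μ)) := by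
              rw [h10, show -(D * L ^ 3 + 4 * L + 2 * Real.log μ) =
                -(D * L ^ 3 + 4 * L + Real.log μ) + -(Real.log μ) by ring,
                Real.exp_add _ (-Real.log μ), Real.exp_neg (Real.log μ), Real.exp_log hμ0]
              field_simp
          _ ≤ (Real.exp (2 * L) * Real.exp (D * L ^ 3) * bn m) *
                Real.exp (-(D * L ^ 3 + 4 * L + Real.log μ)) :=
              mul_le_mul_of_nonneg_right h9 (Real.exp_pos _).le
          _ = Real.exp (-(2 * L + Real.log μ)) * bn m := by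
              rw [← Real.exp_add, mul_assoc, mul_comm (bn m : ℝ), ← mul_assoc, ← Real.exp_add]
              congr 2
              ring
          _ ≤ 1 * bn m := by
              refine mul_le_mul_of_nonneg_right (Real.exp_le_one_iff.mpr ?_) (Nat.cast_nonneg _)
              linarith
          _ = bn m := one_mul _
    have hpoly : (m:ℝ) ^ 2 * (2 * m + 1) ^ 4 ≤ Real.exp (10 * L) := by
      have h3 : Real.exp (10 * L) = ((m + 1 : ℕ) : ℝ) ^ 10 := by
        rw [mul_comm, Real.exp_mul, hLdef, Real.exp_log hn0]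
        exact_mod_cast Real.rpow_natCast ((m + 1 : ℕ) : ℝ) 10
      rw [h3]
      have h4 : (m:ℝ) ≤ ((m + 1 : ℕ) : ℝ) := by push_cast; linarith
      have h5 : 2 * (m:ℝ) + 1 ≤ ((m + 1 : ℕ) : ℝ) ^ 2 := by push_cast; nlinarith
      calc (m:ℝ) ^ 2 * (2 * m + 1) ^ 4 ≤ ((m + 1 : ℕ) : ℝ) ^ 2 * (((m + 1 : ℕ) : ℝ) ^ 2) ^ 4 := by
            gcongr
        _ = ((m + 1 : ℕ) : ℝ) ^ 10 := by ring
    have h3 : (μ ^ m * Real.exp (-(D * L ^ 3 + 4 * L + 2 * Real.log μ))) ^ 2 ≤
        Real.exp (10 * L) * P :=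
      (pow_le_pow_left₀ (by positivity) hb 2).trans
        (hp.trans (mul_le_mul_of_nonneg_right hpoly hP0))
    have e2 : μ ^ (2 * (m + 1)) = μ ^ (2 * m) * Real.exp (2 * Real.log μ) := by
      rw [mul_comm 2 (Real.log μ), Real.exp_mul, Real.exp_log hμ0]
      have : μ ^ (2:ℝ) = μ ^ 2 := by exact_mod_cast Real.rpow_natCast μ 2
      rw [this]
      ring
    have e1 : (μ ^ m * Real.exp (-(D * L ^ 3 + 4 * L + 2 * Real.log μ))) ^ 2 =
        μ ^ (2 * m) * Real.exp (-(2 * (D * L ^ 3 + 4 * L + 2 * Real.log μ))) := by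
      rw [mul_pow, ← pow_mul, ← Real.exp_nat_mul]
      congr 1
      · congr 1; ring
      · congr 1; push_cast; ring
    calc μ ^ (2 * (m + 1)) * Real.exp (-((8 * D + 24 * Real.log μ + 100) * L ^ 3))
        ≤ Real.exp (-(10 * L)) *
            (μ ^ m * Real.exp (-(D * L ^ 3 + 4 * L + 2 * Real.log μ))) ^ 2 := by
          have e4 : Real.exp (-(10 * L)) *
              (μ ^ (2 * m) * Real.exp (-(2 * (D * L ^ 3 + 4 * L + 2 * Real.log μ)))) =
              μ ^ (2 * m) * Real.exp (-(10 * L) + -(2 * (D * L ^ 3 + 4 * L + 2 * Real.log μ))) := by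
            rw [Real.exp_add]
            ring
          rw [e1, e2, e4, mul_assoc, ← Real.exp_add]
          refine mul_le_mul_of_nonneg_left (Real.exp_le_exp.mpr ?_) (by positivity)
          have h4 : Real.log μ * 1 ≤ Real.log μ * (4 * L ^ 3) :=
            mul_le_mul_of_nonneg_left hL30 hlμ
          nlinarith
      _ ≤ Real.exp (-(10 * L)) * (Real.exp (10 * L) * P) :=
          mul_le_mul_of_nonneg_left h3 (Real.exp_pos _).le
      _ = P := by rw [← mul_assoc, ← Real.exp_add, neg_add_cancel, Real.exp_zero, one_mul]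

end Pool.Agent.Work.MP_376faf_co_cub
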