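import Pool.Agent.Work.MP_376faf_co_log.HPM
import Pool.Agent.Work.MP_376faf_co_log.Tele
import Pool.Agent.Work.MP_376faf_co_neps.Rec

/-! Hairpins with both rays free: definitions and the two planarity lemmas. -/

set_option autoImplicit false

namespace Pool.Agent.Work.MP_376faf_co_cub

open Pool.Agent.Work.MP_376faf_co_lower Pool.Agent.Work.MP_376faf_co_hw
open Pool.Agent.Work.MP_376faf_co_neps
open scoped ENNReal

open Finset Pool.Agent.Work.MP_376faf_co_neps.Abs in
/-- parity proof of the right ray lemma -/
theorem rray_abs (n m N : ℕ) (a y u v : ℕ → ℤ) (hs : ∀ i < n, US a y i)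
    (a0 : a 0 = 0) (hpos : ∀ i ≤ n, 0 < i → 0 < a i) (hmax : ∀ i ≤ n, a i ≤ a n) (hn : 0 < n)
    (hup : a (n - 1) = a n ∧ y (n - 1) + 1 = y n)
    (hs' : ∀ i < N, US u v i) (u0 : u 0 = a n) (v0 : v 0 = y n)
    (hu1 : ∀ i ≤ N, 0 < i → u i < a n) (huN : u N ≤ 0) (hm : m < N)
    (hl : ∀ i ≤ m, u m ≤ u i) (hr : ∀ i ≤ N, m < i → u i < u m)
    (hdis : ∀ i < n, ∀ k ≤ N, a i = u k → y i = v k → False) :
    ∀ i < n, (0 < i ∨ u N < 0) → a i = u m - 1 → y i < v m := by
  have hn2 : 2 ≤ n := by
    rcases Nat.lt_or_ge n 2 with h | h
    · have h1 : n = 1 := by omega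
      subst h1
      have := hpos 1 le_rfl (by omega)
      have := hup.1
      norm_num at this
      omega
    · exact h
  -- the edges of the second path avoid the first path
  have hedge : ∀ i < n, ∀ k < N, ¬ (v k = y i ∧
      ((u k = a i - 1 ∧ u (k + 1) = a i) ∨ (u k = a i ∧ u (k + 1) = a i - 1))) := by
    rintro i hi k hk ⟨h1, ⟨h2, h3⟩ | ⟨h2, h3⟩⟩
    · have h4 := (hs' k hk).cases
      exact hdis i hi (k + 1) (by omega) (by omega) (by omega)
    · exact hdis i hi k hk.le (by omega) (by omega)
  have key : ∀ j, j ≤ n - 1 → (0 < n - 1 - j ∨ u N < 0) →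
      NN N u v (a (n - 1 - j)) (y (n - 1 - j)) = 0 := by
    intro j
    induction j with
    | zero =>
      intro _ _
      rw [Nat.sub_zero, hup.1]
      unfold NN
      refine sum_eq_zero (fun k hk => ?_)
      have hk := mem_range.1 hk
      unfold ee
      rw [if_neg]
      rintro ⟨h1, h2 | h2⟩
      · have := hu1 (k + 1) (by omega) (by omega)
        omega
      · rcases Nat.eq_zero_or_pos k with h3 | h3
        · subst h3
          omega
        · have := hu1 k (by omega) h3
          omega
    | succ j ih =>
      intro hj hcond
      set i := n - 1 - (j + 1) with hi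
      have hi1 : n - 1 - j = i + 1 := by omega
      have hin : i + 1 < n := by omega
      have h1 := ih (by omega) (Or.inl (by omega))
      rw [hi1] at h1
      have g1 := hpos (i + 1) (by omega) (by omega)
      have g2 := hmax (i + 1) (by omega)
      have g3 := hmax i (by omega)
      have g4 : 0 < a i ∨ u N < 0 := by
        rcases hcond with h | h
        · exact Or.inl (hpos i (by omega) h)
        · exact Or.inr h
      have g5 : 0 ≤ a i := by
        rcases Nat.eq_zero_or_pos i with h | h
        · rw [h, a0]
        · exact (hpos i (by omega) h).le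
      rcases (hs i (by omega)).cases with ⟨h2, h3⟩ | ⟨h2, h3⟩ | ⟨h2, h3⟩ | ⟨h2, h3⟩
      · rw [h2, h3] at h1
        rw [← h1]
        symm
        refine NN_hor hs' _ _ ?_ (by omega) (by omega)
        rintro k hk ⟨h4, h5⟩
        exact hdis i (by omega) k hk h4.symm h5.symm
      · rw [← h1, show a i = a (i + 1) + 1 by omega, show y i = y (i + 1) by omega]
        refine NN_hor hs' _ _ ?_ (by omega) (by omega)
        rintro k hk ⟨h4, h5⟩
        exact hdis (i + 1) hin k hk h4.symm h5.symm
      · rw [h2, h3] at h1
        rw [← h1]
        symm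
        exact NN_vert _ _ (fun k hk => hedge i (by omega) k hk)
      · rw [← h1, show y i = y (i + 1) + 1 by omega, show a i = a (i + 1) by omega]
        exact NN_vert _ _ (fun k hk => hedge (i + 1) hin k hk)
  intro i hi hcond hai
  by_contra hlt
  have h1 := key (n - 1 - i) (by omega) (by
    rw [show n - 1 - (n - 1 - i) = i by omega]
    exact hcond)
  rw [show n - 1 - (n - 1 - i) = i by omega] at h1
  -- the step after the end of the first part
  have hst := (hs' m hm).cases
  have h2 := hr (m + 1) (by omega) (by omega)
  have h3 : u (m + 1) = u m - 1 ∧ v (m + 1) = v m := by omega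
  have h4 : v m < y i := by
    rcases lt_or_eq_of_le (not_lt.1 hlt) with h5 | h5
    · exact h5
    · exact (hdis i hi (m + 1) (by omega) (by omega) (by omega)).elim
  have g5 : 0 < a i ∨ u N < 0 := by
    rcases hcond with h | h
    · exact Or.inl (hpos i (by omega) h)
    · exact Or.inr h
  have g6 : 0 ≤ a i := by
    rcases Nat.eq_zero_or_pos i with h | h
    · rw [h, a0]
    · exact (hpos i (by omega) h).le
  have hum : u m ≤ a n := by
    have := hl 0 (by omega)
    omega
  have h5 : NN N u v (a i + 1) (y i) = 0 := by
    rw [← h1]
    refine NN_hor hs' _ _ ?_ (by omega) (by omega)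
    rintro k hk ⟨h6, h7⟩
    exact hdis i hi k hk h6.symm h7.symm
  have h6 : NN N u v (a i + 1) (y i) = 1 := by
    unfold NN
    rw [sum_eq_single m]
    · unfold ee
      rw [if_pos]
      exact ⟨h4, Or.inr ⟨by omega, by omega⟩⟩
    · intro k hk hkm
      have hk := mem_range.1 hk
      unfold ee
      rw [if_neg]
      rintro ⟨_, h7⟩
      rcases Nat.lt_or_ge k m with h8 | h8
      · have := hl k h8.le
        have := hl (k + 1) h8
        omega
      · have := hr k hk.le (by omega)
        have := hr (k + 1) hk (by omega)
        omega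
    · intro h
      exact absurd (mem_range.2 hm) h
  rw [h5] at h6
  exact absurd h6 (by decide)

/-- hairpin `c`, `e` of sign `+` (last step of `c` up): the second arm meets the column of the start
of `c` only above the start; the first arm meets the column after the end of the second arm only
below the end -/
structure RQ (c e : List Pt) : Prop where
  cp : Cp c e
  left : ∀ k ≤ e.length, (c.sum - pos e k).1 = 0 → 0 < (c.sum - pos e k).2
  right : ∀ k ≤ c.length, (pos c k).1 = (c.sum - e.sum).1 - 1 → (pos c k).2 < (c.sum - e.sum).2

/-- left ray -/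
theorem left_ray {c' c e : List Pt} (hc' : Bridge c') (hc : Bridge c) (he : Bridge e)
    (h : Cp (c' ++ c) e) (h0 : c ≠ []) (hs : sp e ≤ sp (c' ++ c)) :
    ∀ k ≤ e.length, (c.sum - pos e k).1 = 0 → 0 < (c.sum - pos e k).2 :=
  (Pool.Agent.Work.MP_376faf_co_log.hp_mirror hc' hc he h h0 hs).2

/-- right ray -/
theorem right_ray {c e e' : List Pt} (hc : Bridge c) (he : Bridge e) (he' : Bridge e')
    (h : Cp c (e ++ e')) (h1 : e' ≠ []) (hs : sp c ≤ sp (e ++ e')) :
    ∀ k ≤ c.length, (pos c k).1 = (c.sum - e.sum).1 - 1 → (pos c k).2 < (c.sum - e.sum).2 := by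
  intro k hk hk1
  have hb : Bridge (e ++ e') := bridge_append he he'
  have hlen : (e ++ e').length = e.length + e'.length := List.length_append
  have hcl : 0 < c.length := List.length_pos_iff.2 h.2.1
  have hel : 0 < e'.length := List.length_pos_iff.2 h1
  have hW := h.1
  have hsum : (e ++ e').sum = e.sum + e'.sum := List.sum_append
  have hspc := sp_eq hc
  have hspb := sp_eq hb
  have he0 := he.nonneg (le_refl e.length)
  rw [pos_len] at he0
  have hcsum : pos c c.length = c.sum := pos_len c
  have hkn : k < c.length := by
    rcases lt_or_eq_of_le hk with h2 | h2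
    · exact h2
    · subst h2
      rw [hcsum] at hk1
      simp only [Prod.fst_sub] at hk1
      omega
  have hdis : ∀ i < c.length, ∀ k ≤ (e ++ e').length,
      (pos c i).1 = (c.sum - pos (e ++ e') k).1 → (pos c i).2 = (c.sum - pos (e ++ e') k).2 →
        False := by
    intro i hi k hk h2 h3
    have h4 := hW.2 (show i ∈ Set.Iic (c ++ ng (e ++ e')).length by
        simp only [Set.mem_Iic, List.length_append] at hi ⊢; omega)
      (show c.length + k ∈ Set.Iic (c ++ ng (e ++ e')).length by
        simp only [Set.mem_Iic, List.length_append, ng_length] at hk ⊢; omega) (by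
        rw [pos_append_left _ _ hi.le, pos_append_right, pos_ng, ← sub_eq_add_neg]
        exact Prod.ext h2 h3)
    omega
  have hm1 : pos (e ++ e') e.length = e.sum := by
    rw [pos_append_left _ _ le_rfl, pos_len]
  have hcpos : 0 < (c.sum).1 := by
    have := (hc.2 c.length hcl le_rfl).1
    rwa [pos_len] at this
  -- the step after `e`
  by_cases hk00 : 0 < k ∨ (c.sum).1 < ((e ++ e').sum).1
  · have key := rray_abs c.length e.length (e ++ e').length (fun i => (pos c i).1)
      (fun i => (pos c i).2) (fun k => (c.sum - pos (e ++ e') k).1)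
      (fun k => (c.sum - pos (e ++ e') k).2)
      (fun i hi => Pool.Agent.Work.MP_376faf_co_neps.Abs.us_pos hc.1 hi) (by simp) (fun i hi hi0 => (hc.2 i hi0 hi).1)
      (by
        intro i hi
        exact hc.le_end hi)
      hcl
      (by
        have h2 := h.2.2.2
        have h3 := congrArg Prod.fst h2
        have h4 := congrArg Prod.snd h2
        rw [Prod.fst_add] at h3
        rw [Prod.snd_add] at h4
        constructor <;> omega)
      (by
        intro i hi
        have h2 := pos_succ (e ++ e') hi
        have h3 := hb.1.1 _ (List.getElem_mem hi)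
        unfold Pool.Agent.Work.MP_376faf_co_neps.Abs.US
        unfold Un at h3
        simp only [h2, Prod.fst_sub, Prod.snd_sub, Prod.fst_add, Prod.snd_add]
        rw [← h3]
        congr 1
        · rw [show c.sum.1 - ((pos (e ++ e') i).1 + ((e ++ e')[i]).1) -
            (c.sum.1 - (pos (e ++ e') i).1) = -((e ++ e')[i]).1 by ring, abs_neg]
        · rw [show c.sum.2 - ((pos (e ++ e') i).2 + ((e ++ e')[i]).2) -
            (c.sum.2 - (pos (e ++ e') i).2) = -((e ++ e')[i]).2 by ring, abs_neg])
      (by simp [hcsum]) (by simp [hcsum])
      (by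
        intro i hi hi0
        have := (hb.2 i hi0 hi).1
        simp only [Prod.fst_sub, hcsum]
        omega)
      (by
        simp only [Prod.fst_sub, pos_len]
        omega)
      (by omega)
      (by
        intro i hi
        have := he.le_end hi
        rw [pos_len] at this
        simp only [Prod.fst_sub, hm1]
        rw [pos_append_left _ _ hi]
        omega)
      (by
        intro i hi hmi
        obtain ⟨j, rfl⟩ := Nat.exists_eq_add_of_lt hmi
        simp only [Prod.fst_sub, hm1]
        rw [show e.length + j + 1 = e.length + (j + 1) by ring, pos_append_right, Prod.fst_add]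
        have := (he'.2 (j + 1) (by omega) (by omega)).1
        omega)
      hdis k hkn (by
        simp only [Prod.fst_sub, pos_len]
        rcases hk00 with h2 | h2
        · exact Or.inl h2
        · exact Or.inr (by omega)) (by
        simp only [hm1]
        exact hk1)
    simpa only [hm1] using key
  · have h2 : k = 0 := by omega
    subst h2
    rw [pos_zero] at hk1 ⊢
    have h3 : ((e ++ e').sum).1 ≤ (c.sum).1 := by omega
    have h4 := (Pool.Agent.Work.MP_376faf_co_log.hp_mirror (c' := []) (c0 := c) (e := e ++ e')
      (by constructor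
          · exact ⟨by simp, by intro a ha b hb _; simp at ha hb; omega⟩
          · intro i h0 hi; simp at hi; omega) hc hb (by simpa using h) h.2.1
      (by simp only [List.nil_append]; omega)).2
    have h5 := h4 (e.length + 1) (by omega) (by
      rw [pos_append_right]
      have h6 : 0 < (pos e' 1).1 := (he'.2 1 (by omega) (by omega)).1
      have h7 := (he'.1.1 _ (List.getElem_mem hel))
      have h8 : pos e' 1 = e'[0] := by
        have := pos_succ e' hel
        simpa using this
      unfold Un at h7
      rw [← h8] at h7
      have h9 : (pos e' 1).1 = 1 := by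
        have h10 := abs_nonneg (pos e' 1).2
        have h11 := le_abs_self (pos e' 1).1
        omega
      simp only [Prod.fst_sub, Prod.fst_zero, Prod.fst_add] at hk1 ⊢
      omega)
    have h6 : (pos e' 1).2 = 0 := by
      have h6 : 0 < (pos e' 1).1 := (he'.2 1 (by omega) (by omega)).1
      have h7 := (he'.1.1 _ (List.getElem_mem hel))
      have h8 : pos e' 1 = e'[0] := by
        have := pos_succ e' hel
        simpa using this
      unfold Un at h7
      rw [← h8] at h7
      have h10 := abs_nonneg (pos e' 1).2
      have h11 := le_abs_self (pos e' 1).1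
      exact abs_eq_zero.1 (by omega)
    rw [pos_append_right] at h5
    simp only [Prod.snd_sub, Prod.snd_add, h6] at h5
    simp only [Prod.snd_sub, Prod.snd_zero]
    omega

/-- first part of the second arm, last part of the first arm -/
theorem Cp.sub {c' c e e' : List Pt} (_hc : Bridge c) (_he : Bridge e)
    (h : Cp (c' ++ c) (e ++ e')) (h0 : c ≠ []) (h1 : e ≠ []) : Cp c e := by
  have hcl : 0 < c.length := List.length_pos_iff.2 h0
  refine ⟨?_, h0, h1, ?_⟩
  · have h2 : ng (e ++ e') = ng e ++ ng e' := List.map_append
    have h3 := h.1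
    rw [h2, ← List.append_assoc] at h3
    have h4 := h3.take ((c' ++ c) ++ ng e).length
    rw [List.take_left'] at h4
    · have h5 := h4.drop (j := c'.length) (by simp only [List.length_append]; omega)
      rwa [List.append_assoc, List.drop_left'] at h5
      rfl
    · rfl
  · have h2 := h.2.2.2
    have hlen : (c' ++ c).length = c'.length + c.length := List.length_append
    rw [hlen, pos_append_right, show c'.length + c.length - 1 = c'.length + (c.length - 1) by omega,
      pos_append_right, add_assoc] at h2
    exact add_left_cancel h2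

/-- the pairs which occur at the tips of a chain -/
def W2 (c e : List Pt) : Prop := c = [] ∨ e = [] ∨ RQ c e ∨ RQ (ry c) (ry e)

end Pool.Agent.Work.MP_376faf_co_cub
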