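import Mathlib

/-! Power series with coefficients in `ℝ≥0∞`: generating series of weighted families, order,
pairing with test functions, Grönwall. -/

set_option autoImplicit false

namespace Pool.Agent.Work.MP_376faf_co_cub

open scoped ENNReal

abbrev PS : Type := PowerSeries ℝ≥0∞

/-- coefficientwise order -/
def Le (p q : PS) : Prop := ∀ n, PowerSeries.coeff n p ≤ PowerSeries.coeff n q

open Classical in
/-- generating series of a weighted family -/
noncomputable def S {α : Type} (len : α → ℕ) (w : α → ℝ≥0∞) : PS :=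
  PowerSeries.mk fun n => ∑' a, if len a = n then w a else 0

/-- pairing with a test function -/
noncomputable def pr (p : PS) (f : ℕ → ℝ≥0∞) : ℝ≥0∞ := ∑' n, PowerSeries.coeff n p * f n

/-- scalar -/
noncomputable def cc (c : ℝ≥0∞) : PS := PowerSeries.C c

theorem pr_S {α : Type} (len : α → ℕ) (w : α → ℝ≥0∞) (f : ℕ → ℝ≥0∞) :
    pr (S len w) f = ∑' a, w a * f (len a) := by
  classical
  unfold pr S
  simp only [PowerSeries.coeff_mk]
  calc _ = ∑' n, ∑' a, (if len a = n then w a else 0) * f n := by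
        refine tsum_congr fun n => ?_
        rw [ENNReal.tsum_mul_right]
    _ = ∑' a, ∑' n, (if len a = n then w a else 0) * f n := ENNReal.tsum_comm
    _ = _ := by
        refine tsum_congr fun a => ?_
        rw [tsum_eq_single (len a)]
        · simp
        · intro n hn
          rw [if_neg (Ne.symm hn), zero_mul]

theorem pr_mul (p q : PS) (f : ℕ → ℝ≥0∞) :
    pr (p * q) f = pr p (fun i => pr q (fun j => f (i + j))) := by
  unfold pr
  set F : ℕ × ℕ → ℝ≥0∞ := fun x => PowerSeries.coeff x.1 p * PowerSeries.coeff x.2 q *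
    f (x.1 + x.2) with hF
  calc ∑' n, PowerSeries.coeff n (p * q) * f n =
        ∑' n, ∑' x : Finset.HasAntidiagonal.antidiagonal n, F x.1 := by
        refine tsum_congr fun n => ?_
        rw [PowerSeries.coeff_mul, Finset.sum_mul,
          Finset.tsum_subtype (Finset.HasAntidiagonal.antidiagonal n) F]
        refine Finset.sum_congr rfl fun x hx => ?_
        rw [hF, ← Finset.HasAntidiagonal.mem_antidiagonal.1 hx]
    _ = ∑' y : (Σ n : ℕ, Finset.HasAntidiagonal.antidiagonal n), F y.2.1 :=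
        (ENNReal.tsum_sigma' (fun y : (Σ n : ℕ, Finset.HasAntidiagonal.antidiagonal n) => F y.2.1)).symm
    _ = ∑' x : ℕ × ℕ, F x := by
        rw [← Finset.HasAntidiagonal.sigmaAntidiagonalEquivProd.tsum_eq F]
        rfl
    _ = ∑' i, ∑' j, F (i, j) := ENNReal.tsum_prod'
    _ = _ := by
        refine tsum_congr fun i => ?_
        rw [← ENNReal.tsum_mul_left]
        refine tsum_congr fun j => ?_
        simp only [hF]
        ring

theorem pr_S_mul {α : Type} (len : α → ℕ) (w : α → ℝ≥0∞) (q : PS) (f : ℕ → ℝ≥0∞) :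
    pr (S len w * q) f = ∑' a, w a * pr q (fun k => f (len a + k)) := by
  rw [pr_mul, pr_S]

theorem pr_single (p : PS) (n : ℕ) : pr p (fun k => if k = n then 1 else 0) =
    PowerSeries.coeff n p := by
  unfold pr
  rw [tsum_eq_single n]
  · simp
  · intro k hk
    simp [hk]

theorem le_iff_pr {p q : PS} : Le p q ↔ ∀ f, pr p f ≤ pr q f := by
  constructor
  · intro h f
    exact ENNReal.tsum_le_tsum fun n => mul_le_mul' (h n) le_rfl
  · intro h n
    have := h (fun k => if k = n then 1 else 0)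
    rwa [pr_single, pr_single] at this

theorem pr_add (p q : PS) (f : ℕ → ℝ≥0∞) : pr (p + q) f = pr p f + pr q f := by
  unfold pr
  rw [← ENNReal.tsum_add]
  refine tsum_congr fun n => ?_
  rw [map_add, add_mul]

theorem pr_cc (c : ℝ≥0∞) (p : PS) (f : ℕ → ℝ≥0∞) : pr (cc c * p) f = c * pr p f := by
  unfold pr cc
  rw [← ENNReal.tsum_mul_left]
  refine tsum_congr fun n => ?_
  rw [PowerSeries.coeff_C_mul, mul_assoc]

theorem pr_sum (s : Finset ℕ) (g : ℕ → PS) (f : ℕ → ℝ≥0∞) :
    pr (∑ A ∈ s, g A) f = ∑ A ∈ s, pr (g A) f := by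
  unfold pr
  rw [← Summable.tsum_finsetSum (fun _ _ => ENNReal.summable)]
  refine tsum_congr fun n => ?_
  rw [map_sum, Finset.sum_mul]

theorem Le.refl (p : PS) : Le p p := fun _ => le_rfl

theorem Le.trans {p q r : PS} (h : Le p q) (h' : Le q r) : Le p r := fun n => (h n).trans (h' n)

theorem Le.add {p q p' q' : PS} (h : Le p q) (h' : Le p' q') : Le (p + p') (q + q') := by
  intro n
  rw [map_add, map_add]
  exact add_le_add (h n) (h' n)

theorem Le.mul {p q p' q' : PS} (h : Le p q) (h' : Le p' q') : Le (p * p') (q * q') := by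
  intro n
  rw [PowerSeries.coeff_mul, PowerSeries.coeff_mul]
  exact Finset.sum_le_sum fun x _ => mul_le_mul' (h x.1) (h' x.2)

/-- Grönwall -/
theorem gron {N : ℕ} {Y g : ℕ → PS} {P : PS} (hN : 1 ≤ N)
    (h : ∀ M, N - 1 ≤ M → M < 2 * N → Le (Y M) (P + ∑ A ∈ Finset.Ico N (M + 1), g A * Y (A - 1))) :
    Le (Y (2 * N - 1)) (P * ∏ A ∈ Finset.Ico N (2 * N), (1 + g A)) := by
  have key : ∀ d, d ≤ N → ∀ M, N ≤ M → M ≤ N + d →
      Le (Y (M - 1)) (P * ∏ A ∈ Finset.Ico N M, (1 + g A)) := by
    intro d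
    induction d with
    | zero =>
      intro _ M h1 h2
      have h3 : M = N := by omega
      subst h3
      have h4 := h (M - 1) le_rfl (by omega)
      rw [show M - 1 + 1 = M by omega] at h4
      simpa using h4
    | succ d ih =>
      intro hd M h1 h2
      rcases Nat.lt_or_ge M (N + d + 1) with h3 | h3
      · exact ih (by omega) M h1 (by omega)
      · have h4 : M = N + d + 1 := by omega
        subst h4
        have h5 := h (N + d) (by omega) (by omega)
        rw [show N + d + 1 - 1 = N + d by omega]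
        refine h5.trans ?_
        have h6 : ∀ k, k ≤ d + 1 → P + ∑ A ∈ Finset.Ico N (N + k), g A *
            (P * ∏ A' ∈ Finset.Ico N A, (1 + g A')) =
            P * ∏ A ∈ Finset.Ico N (N + k), (1 + g A) := by
          intro k
          induction k with
          | zero => intro _; simp
          | succ k ih2 =>
            intro hk
            rw [← add_assoc, Finset.sum_Ico_succ_top (by omega), Finset.prod_Ico_succ_top (by omega),
              ← add_assoc, ih2 (by omega)]
            ring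
        have h7 := h6 (d + 1) le_rfl
        rw [← add_assoc] at h7
        rw [← h7]
        intro n
        rw [map_add, map_add, map_sum, map_sum]
        refine add_le_add le_rfl (Finset.sum_le_sum fun A hA => ?_)
        obtain ⟨h8, h9⟩ := Finset.mem_Ico.1 hA
        exact Le.mul (Le.refl _) (ih (by omega) A h8 (by omega)) n
  exact key N le_rfl (2 * N) (by omega) (by omega)

theorem Le.right (p q : PS) : Le p (p + q) := by
  intro n
  rw [map_add]
  exact le_self_add

theorem Le.left (p q : PS) : Le p (q + p) := by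
  rw [add_comm]
  exact Le.right p q

theorem Le.sum {s : Finset ℕ} {f g : ℕ → PS} (h : ∀ i ∈ s, Le (f i) (g i)) :
    Le (∑ i ∈ s, f i) (∑ i ∈ s, g i) := by
  intro n
  rw [map_sum, map_sum]
  exact Finset.sum_le_sum (fun i hi => h i hi n)

theorem Le.ccm {a b : ℝ≥0∞} (h : a ≤ b) (p : PS) : Le (cc a * p) (cc b * p) := by
  intro n
  unfold cc
  rw [PowerSeries.coeff_C_mul, PowerSeries.coeff_C_mul]
  exact mul_le_mul_left h _

/-- two terms of the binomial expansion -/
theorem binom_le (g G : PS) : ∀ k : ℕ,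
    Le (G ^ (k + 1) + ((k + 1 : ℕ) : PS) * (g * G ^ k)) ((g + G) ^ (k + 1)) := by
  intro k
  induction k with
  | zero =>
    rw [zero_add, pow_one, pow_one, pow_zero, mul_one, Nat.cast_one, one_mul, add_comm]
    exact Le.refl _
  | succ k ih =>
    rw [pow_succ (g + G) (k + 1)]
    refine Le.trans ?_ (Le.mul ih (Le.refl _))
    have h1 : (G ^ (k + 1) + ((k + 1 : ℕ) : PS) * (g * G ^ k)) * (g + G) =
        (G ^ (k + 1 + 1) + ((k + 1 + 1 : ℕ) : PS) * (g * G ^ (k + 1))) +
          ((k + 1 : ℕ) : PS) * (g * G ^ k) * g := by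
      push_cast
      ring
    rw [h1]
    exact Le.right _ _

noncomputable def ifa (k : ℕ) : ℝ≥0∞ := ((k.factorial : ℕ) : ℝ≥0∞)⁻¹

theorem ifa_succ (k : ℕ) : cc (ifa (k + 1)) * ((k + 1 : ℕ) : PS) = cc (ifa k) := by
  unfold cc ifa
  rw [show ((k + 1 : ℕ) : PS) = PowerSeries.C (((k + 1 : ℕ) : ℝ≥0∞)) by simp, ← map_mul]
  congr 1
  rw [Nat.factorial_succ, Nat.cast_mul, ENNReal.mul_inv (Or.inl (by simp)) (Or.inl (by simp)),
    mul_comm (((k + 1 : ℕ) : ℝ≥0∞)⁻¹), mul_assoc, ENNReal.inv_mul_cancel (by simp) (by simp),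
    mul_one]

theorem ifa_zero : cc (ifa 0) = 1 := by
  unfold cc ifa
  simp

/-- truncated exponential series -/
noncomputable def ex (n : ℕ) (G : PS) : PS := ∑ k ∈ Finset.range (n + 1), cc (ifa k) * G ^ k

theorem ex_step (n : ℕ) (g G : PS) : Le ((1 + g) * ex n G) (ex (n + 1) (g + G)) := by
  unfold ex
  rw [Finset.sum_range_succ' _ (n + 1), pow_zero, mul_one]
  have h1 : (1 + g) * ∑ k ∈ Finset.range (n + 1), cc (ifa k) * G ^ k =
      ∑ k ∈ Finset.range (n + 1), cc (ifa k) * G ^ k +
        ∑ k ∈ Finset.range (n + 1), cc (ifa k) * (g * G ^ k) := by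
    rw [add_mul, one_mul, Finset.mul_sum]
    congr 1
    exact Finset.sum_congr rfl (fun k _ => by ring)
  rw [h1, Finset.sum_range_succ' (fun k => cc (ifa k) * G ^ k) n, pow_zero, mul_one,
    add_right_comm]
  refine Le.add ?_ (Le.refl _)
  have h2 : Le (∑ k ∈ Finset.range n, cc (ifa (k + 1)) * G ^ (k + 1))
      (∑ k ∈ Finset.range (n + 1), cc (ifa (k + 1)) * G ^ (k + 1)) := by
    rw [Finset.sum_range_succ]
    exact Le.right _ _
  refine Le.trans (Le.add h2 (Le.refl _)) ?_
  rw [← Finset.sum_add_distrib]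
  refine Le.sum (fun k _ => ?_)
  have h3 : cc (ifa (k + 1)) * G ^ (k + 1) + cc (ifa k) * (g * G ^ k) =
      cc (ifa (k + 1)) * (G ^ (k + 1) + ((k + 1 : ℕ) : PS) * (g * G ^ k)) := by
    rw [← ifa_succ k]
    ring
  rw [h3]
  exact Le.mul (Le.refl _) (binom_le g G k)

theorem prod_le_ex (g : ℕ → PS) (s : Finset ℕ) :
    Le (∏ A ∈ s, (1 + g A)) (ex s.card (∑ A ∈ s, g A)) := by
  classical
  induction s using Finset.induction_on with
  | empty =>
    rw [Finset.prod_empty, Finset.card_empty, Finset.sum_empty]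
    unfold ex
    rw [zero_add, Finset.sum_range_one, pow_zero, mul_one, ifa_zero]
    exact Le.refl _
  | insert a s ha ih =>
    rw [Finset.prod_insert ha, Finset.card_insert_of_notMem ha, Finset.sum_insert ha]
    exact (Le.mul (Le.refl _) ih).trans (ex_step _ _ _)

theorem prod_exp {s : Finset ℕ} {g : ℕ → PS} {B : PS} {c : ℝ} (hc : 0 ≤ c)
    (h : Le ((∑ A ∈ s, g A) * B) (cc (ENNReal.ofReal c) * B)) :
    Le ((∏ A ∈ s, (1 + g A)) * B) (cc (ENNReal.ofReal (Real.exp c)) * B) := by
  set G := ∑ A ∈ s, g A with hG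
  refine (Le.mul (prod_le_ex g s) (Le.refl B)).trans ?_
  rw [← hG]
  have hp : ∀ k : ℕ, Le (G ^ k * B) (cc (ENNReal.ofReal (c ^ k)) * B) := by
    intro k
    induction k with
    | zero =>
      rw [pow_zero, pow_zero, ENNReal.ofReal_one]
      unfold cc
      rw [map_one]
      exact Le.refl _
    | succ k ih =>
      rw [pow_succ, mul_assoc]
      refine (Le.mul (Le.refl (G ^ k)) h).trans ?_
      rw [show G ^ k * (cc (ENNReal.ofReal c) * B) = cc (ENNReal.ofReal c) * (G ^ k * B) by ring]
      refine (Le.mul (Le.refl _) ih).trans ?_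
      rw [← mul_assoc]
      have : cc (ENNReal.ofReal c) * cc (ENNReal.ofReal (c ^ k)) = cc (ENNReal.ofReal (c ^ (k + 1))) := by
        unfold cc
        rw [← map_mul, ← ENNReal.ofReal_mul hc, pow_succ, mul_comm]
      rw [this]
      exact Le.refl _
  unfold ex
  rw [Finset.sum_mul]
  have h1 : Le (∑ k ∈ Finset.range (s.card + 1), cc (ifa k) * G ^ k * B)
      (∑ k ∈ Finset.range (s.card + 1), cc (ifa k) * (cc (ENNReal.ofReal (c ^ k)) * B)) := by
    refine Le.sum (fun k _ => ?_)
    rw [mul_assoc]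
    exact Le.mul (Le.refl _) (hp k)
  refine h1.trans ?_
  have h2 : ∑ k ∈ Finset.range (s.card + 1), cc (ifa k) * (cc (ENNReal.ofReal (c ^ k)) * B) =
      cc (∑ k ∈ Finset.range (s.card + 1), ENNReal.ofReal (c ^ k / (k.factorial : ℝ))) * B := by
    unfold cc
    rw [map_sum, Finset.sum_mul]
    refine Finset.sum_congr rfl (fun k _ => ?_)
    rw [← mul_assoc, ← map_mul]
    congr 2
    unfold ifa
    rw [ENNReal.ofReal_div_of_pos (by positivity), ENNReal.ofReal_natCast, div_eq_mul_inv, mul_comm]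
  rw [h2]
  refine Le.ccm ?_ B
  rw [← ENNReal.ofReal_sum_of_nonneg (fun k _ => by positivity)]
  exact ENNReal.ofReal_le_ofReal (Real.sum_le_exp_of_nonneg hc _)

end Pool.Agent.Work.MP_376faf_co_cub
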