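import Pool.Agent.Work.MP_376faf_co_cub.Geo
import Pool.Agent.Work.MP_376faf_co_cub.FMS
import Pool.Agent.Work.MP_376faf_co_poly.FMSum

/-! One window: the ray hairpins with arms in narrow windows are at most as many as the bridges
(fixed number of steps). -/

set_option autoImplicit false

namespace Pool.Agent.Work.MP_376faf_co_cub

open Pool.Agent.Work.MP_376faf_co_lower Pool.Agent.Work.MP_376faf_co_hw
open Pool.Agent.Work.MP_376faf_co_neps
open Pool.Agent.Work.MP_376faf_co_poly (fd pos_fd_le pos_fd_ge fd_length fd_append_ry)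
open scoped ENNReal

/-- the two arms are determined by the hairpin -/
theorem hair_inj {c e c' e' : List Pt} (hc : Bridge c) (he : Bridge e) (hc' : Bridge c')
    (he' : Bridge e') (heq : c ++ ng e = c' ++ ng e') : c = c' ∧ e = e' := by
  have key : ∀ {c e c' e' : List Pt}, Bridge c → Bridge e → Bridge c' → Bridge e' →
      c ++ ng e = c' ++ ng e' → ¬ c.length < c'.length := by
    intro c e c' e' _ he hc' _ heq hlt
    have hlen : c.length + e.length = c'.length + e'.length := by
      have := congrArg List.length heq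
      simpa using this
    have h1 : pos (c ++ ng e) c.length = pos c c.length := pos_append_left _ _ le_rfl
    have h2 : pos (c' ++ ng e') c.length = pos c' c.length := pos_append_left _ _ hlt.le
    have h3 : pos (c' ++ ng e') c'.length = pos c' c'.length := pos_append_left _ _ le_rfl
    obtain ⟨i, hi⟩ : ∃ i, c'.length = c.length + i := ⟨c'.length - c.length, by omega⟩
    have h4 : pos (c ++ ng e) c'.length = pos c c.length + pos (ng e) i := by
      rw [hi, pos_append_right, ← pos_len]
    have h5 := hc'.le_end hlt.le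
    have h6 := (he.2 i (by omega) (by omega)).1
    rw [heq, h3] at h4
    rw [heq, h2] at h1
    rw [h4, h1, pos_ng] at h5
    simp only [Prod.fst_add, Prod.fst_neg] at h5
    omega
  have h1 := key hc he hc' he' heq
  have h2 := key hc' he' hc he heq.symm
  obtain ⟨h3, h4⟩ := List.append_inj heq (by omega)
  refine ⟨h3, ?_⟩
  rw [← ng_ng e, h4, ng_ng]

/-- ray hairpins with arms in windows -/
def RW (X1 T1 X2 T2 : ℕ) (c e : List Pt) : Prop := RQ c e ∧ X1 ≤ sp c ∧ sp c < T1 ∧
  X2 ≤ sp e + 1 ∧ sp e + 1 < T2

theorem bridge_snoc {e : List Pt} (he : Bridge e) : Bridge (e ++ [eE]) :=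
  bridge_append he bridge_E

theorem sp_snoc {e : List Pt} (he : Bridge e) : sp (e ++ [eE]) = sp e + 1 := by
  have h1 := sp_eq (bridge_snoc he)
  have h2 := sp_eq he
  rw [List.sum_append, Prod.fst_add, List.sum_singleton, ← h2] at h1
  have h3 : (eE : Pt).1 = 1 := rfl
  rw [h3] at h1
  exact_mod_cast h1

theorem RW.hs {X1 T1 X2 T2 : ℕ} {c e : List Pt} (hc : Bridge c) (he : Bridge e)
    (h : RW X1 T1 X2 T2 c e) :
    HS (c.length + e.length + 1) X1 T1 X2 T2 (c ++ ng (e ++ [eE])) := by
  obtain ⟨hq, h1, h2, h3, h4⟩ := h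
  have hE := bridge_snoc he
  have hsE := sp_snoc he
  set e1 := e ++ [eE] with he1
  have hl1 : e1.length = e.length + 1 := by rw [he1]; simp
  have hv : Bridge (c ++ ry e1) := bridge_append hc (ry_bridge hE)
  have hvl : (c ++ ry e1).length = c.length + e.length + 1 := by
    rw [List.length_append, ry_length, hl1]; ring
  have hcut : Cut (c ++ ry e1) c.length := by
    refine ⟨?_, ?_⟩
    · intro j hj
      rw [pos_append_left _ _ hj, pos_append_left _ _ le_rfl]
      exact hc.le_end hj
    · intro j h1 h2
      rw [List.length_append, ry_length] at h2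
      obtain ⟨i, rfl⟩ : ∃ i, j = c.length + i := ⟨j - c.length, by omega⟩
      rw [pos_append_right, pos_append_left _ _ le_rfl, pos_len, Prod.fst_add]
      have := ((ry_bridge hE).2 i (by omega) (by rw [ry_length]; omega)).1
      omega
  have ptip : (pos (c ++ ry e1) c.length).1 = sp c := by
    rw [pos_append_left _ _ le_rfl, pos_len, sp_eq hc]
  have pend : (pos (c ++ ry e1) (c.length + e.length + 1)).1 = sp c + (sp e + 1) := by
    rw [← hvl, pos_len, ← sp_eq hv]
    have : sp (c ++ ry e1) = sp c + sp (ry e1) := by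
      have h5 := sp_eq hv
      rw [List.sum_append, Prod.fst_add, ← sp_eq hc, ← sp_eq (ry_bridge hE)] at h5
      exact_mod_cast h5
    rw [this, sp_ry, hsE]
    push_cast
    ring
  -- positions of the second arm
  have pe1 : ∀ k ≤ e.length, pos e1 k = pos e k := fun k hk => pos_append_left _ _ hk
  have pe2 : pos e1 (e.length + 1) = e.sum + eE := by
    rw [← hl1, pos_len, he1, List.sum_append]
    simp
  have phr : ∀ k, pos (c ++ ng e1) (c.length + k) = c.sum - pos e1 k := by
    intro k
    rw [pos_append_right, pos_ng, sub_eq_add_neg]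
  have hend : pos (c ++ ng e1) (c.length + e.length + 1) = c.sum - e.sum - eE := by
    rw [add_assoc, phr, pe2]
    abel
  have hsc := sp_eq hc
  have hse := sp_eq he
  have hst : St (c ++ ry e1) := by
    intro k hk
    rw [hvl] at hk ⊢
    rw [pend]
    rcases Nat.le_total k c.length with h5 | h5
    · rw [pos_append_left _ _ h5]
      have := hc.le_end h5
      rw [pos_len, ← hsc] at this
      omega
    · obtain ⟨i, rfl⟩ : ∃ i, k = c.length + i := ⟨k - c.length, by omega⟩
      rw [pos_append_right, Prod.fst_add, ← hsc, pos_ry]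
      simp only
      rw [pe1 i (by omega)]
      have := he.le_end (i := i) (by omega)
      rw [pos_len, ← hse] at this
      omega
  have hw : Walk (c ++ ng e1) := by
    refine ⟨?_, ?_⟩
    · intro s hs
      rcases List.mem_append.1 hs with h5 | h5
      · exact hc.1.1 s h5
      · exact (ng_walk hE.1).1 s h5
    · have hW := hq.cp.1
      have hlen : (c ++ ng e1).length = c.length + e.length + 1 := by
        rw [List.length_append, ng_length, hl1]; ring
      have e0 : ∀ k ≤ c.length + e.length, pos (c ++ ng e1) k = pos (c ++ ng e) k := by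
        intro k hk
        rcases Nat.le_total k c.length with h5 | h5
        · rw [pos_append_left _ _ h5, pos_append_left _ _ h5]
        · obtain ⟨i, rfl⟩ : ∃ i, k = c.length + i := ⟨k - c.length, by omega⟩
          rw [pos_append_right, pos_append_right, pos_ng, pos_ng, pe1 i (by omega)]
      -- the last vertex is new
      have hnew : ∀ k ≤ c.length + e.length,
          pos (c ++ ng e1) k ≠ pos (c ++ ng e1) (c.length + e.length + 1) := by
        intro k hk heq
        rw [hend] at heq
        rcases Nat.le_total k c.length with h5 | h5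
        · rw [pos_append_left _ _ h5] at heq
          have h6 := hq.right k h5 (by rw [heq]; simp [eE])
          rw [heq] at h6
          simp [eE] at h6
        · obtain ⟨i, rfl⟩ : ∃ i, k = c.length + i := ⟨k - c.length, by omega⟩
          rw [phr, pe1 i (by omega)] at heq
          have h6 := he.le_end (i := i) (by omega)
          rw [pos_len] at h6
          have h7 := congrArg Prod.fst heq
          simp [eE] at h7
          omega
      intro a ha b hb hab
      rw [Set.mem_Iic, hlen] at ha hb
      have hl0 : (c ++ ng e).length = c.length + e.length := by simp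
      rcases Nat.lt_or_ge (c.length + e.length) a with h5 | h5 <;>
      rcases Nat.lt_or_ge (c.length + e.length) b with h6 | h6
      · omega
      · have : a = c.length + e.length + 1 := by omega
        subst this
        exact absurd hab.symm (hnew b h6)
      · have : b = c.length + e.length + 1 := by omega
        subst this
        exact absurd hab (hnew a h5)
      · rw [e0 a h5, e0 b h6] at hab
        exact hW.2 (Set.mem_Iic.2 (by omega)) (Set.mem_Iic.2 (by omega)) hab
  refine ⟨c ++ ry e1, c.length, hv, hst, hvl, hcut, by omega, ?_, ?_, ?_, ?_,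
    (fd_append_ry c e1).symm, hw, ?_, ?_⟩
  · rw [ptip]; exact_mod_cast h1
  · rw [ptip]; exact_mod_cast h2
  · rw [ptip, pend]; omega
  · rw [ptip, pend]; omega
  · intro k hk hk0 hk1
    rcases Nat.le_total k c.length with h5 | h5
    · rw [pos_append_left _ _ h5] at hk1
      have := (hc.2 k hk0 h5).1
      omega
    · obtain ⟨i, rfl⟩ : ∃ i, k = c.length + i := ⟨k - c.length, by omega⟩
      rcases Nat.lt_or_ge e.length i with h6 | h6
      · have : i = e.length + 1 := by omega
        subst this
        rw [← add_assoc, hend] at hk1 ⊢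
        have h7 := hq.right 0 (Nat.zero_le _) (by
          rw [pos_zero]
          simp [eE] at hk1
          simp
          omega)
        simp at h7
        simp [eE]
        omega
      · rw [phr, pe1 i h6] at hk1 ⊢
        exact hq.left i h6 hk1
  · intro k hk hk1
    rw [hend] at hk1 ⊢
    rcases Nat.le_total k c.length with h5 | h5
    · rw [pos_append_left _ _ h5] at hk1 ⊢
      have := hq.right k h5 (by rw [hk1]; simp [eE])
      simpa [eE] using this
    · exfalso
      obtain ⟨i, rfl⟩ : ∃ i, k = c.length + i := ⟨k - c.length, by omega⟩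
      rw [phr, pe1 i (by omega)] at hk1
      have h6 := he.le_end (i := i) (by omega)
      rw [pos_len] at h6
      simp [eE] at hk1
      omega

/-- sums over subtypes -/
theorem ite_le_inj {α β : Type} {P : α → Prop} {Q : β → Prop} (f : α → ℝ≥0∞) (g : β → ℝ≥0∞)
    (i : {a // P a} → β) (hi : Function.Injective i) (hQ : ∀ a, Q (i a)) (hle : ∀ a, f a.1 ≤ g (i a))
    [DecidablePred P] [DecidablePred Q] :
    ∑' a, (if P a then f a else 0) ≤ ∑' b, if Q b then g b else 0 := by
  have e1 : ∑' a, (if P a then f a else 0) = ∑' a : {a // P a}, f a.1 := by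
    have := tsum_subtype {a | P a} f
    refine Eq.trans ?_ this.symm
    refine tsum_congr fun a => ?_
    simp only [Set.indicator, Set.mem_ofPred_eq]
    by_cases h : P a <;> simp [h]
  have e2 : ∑' b, (if Q b then g b else 0) = ∑' b : {b // Q b}, g b.1 := by
    have := tsum_subtype {b | Q b} g
    refine Eq.trans ?_ this.symm
    refine tsum_congr fun a => ?_
    simp only [Set.indicator, Set.mem_ofPred_eq]
    by_cases h : Q a <;> simp [h]
  rw [e1, e2]
  refine tsum_le_inj (fun a => (⟨i a, hQ a⟩ : {b // Q b})) ?_ hle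
  intro a b hab
  exact hi (congrArg (fun t : {b // Q b} => t.1) hab)

open Classical in
/-- one window -/
theorem win_le {z : ℝ≥0∞} (hz : z ≤ 1) (n X1 T1 X2 T2 : ℕ) (hW : WinS X1 T1 X2 T2) :
    ∑' p : Br × Br, (if p.1.1.length + p.2.1.length = n ∧ RW X1 T1 X2 T2 p.1.1 p.2.1 then
      z ^ sp p.1.1 * z ^ sp p.2.1 else 0) ≤ ∑' b : Br, if b.1.length = n then z ^ sp b.1 else 0 := by
  obtain ⟨g, hg1, hg2⟩ := fms (n + 1) X1 T1 X2 T2 hW
  have hs : ∀ p : {p : Br × Br // p.1.1.length + p.2.1.length = n ∧ RW X1 T1 X2 T2 p.1.1 p.2.1},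
      HS (n + 1) X1 T1 X2 T2 (p.1.1.1 ++ ng (p.1.2.1 ++ [eE])) := by
    rintro ⟨⟨⟨c, hc⟩, ⟨e, he⟩⟩, hn, h⟩
    have := h.hs hc he
    simp only at hn ⊢
    rwa [hn] at this
  have key : ∀ p : {p : Br × Br // p.1.1.length + p.2.1.length = n ∧ RW X1 T1 X2 T2 p.1.1 p.2.1},
      Bridge ((g (p.1.1.1 ++ ng (p.1.2.1 ++ [eE]))).take n) ∧
      ((g (p.1.1.1 ++ ng (p.1.2.1 ++ [eE]))).take n).length = n ∧
      g (p.1.1.1 ++ ng (p.1.2.1 ++ [eE])) = (g (p.1.1.1 ++ ng (p.1.2.1 ++ [eE]))).take n ++ [eE] ∧
      sp ((g (p.1.1.1 ++ ng (p.1.2.1 ++ [eE]))).take n) ≤ sp p.1.1.1 + sp p.1.2.1 := by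
    rintro ⟨⟨⟨c, hc⟩, ⟨e, he⟩⟩, hn, h⟩
    simp only at hn h ⊢
    obtain ⟨hb, hst, hl, i, hi, hfd, hmax⟩ := hg2 _ (hs ⟨⟨⟨c, hc⟩, ⟨e, he⟩⟩, hn, h⟩)
    simp only at hb hst hl hi hfd hmax
    set w := g (c ++ ng (e ++ [eE])) with hw
    have htl : (w.take n).length = n := by rw [List.length_take]; omega
    -- the last step
    have hdec : w = w.take n ++ w.drop n := (List.take_append_drop n w).symm
    have hdl : (w.drop n).length = 1 := by rw [List.length_drop]; omega
    obtain ⟨s, hs1⟩ := List.length_eq_one_iff.1 hdl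
    have hfl : fd w i = w.take i ++ ((w.take n).drop i).map fl ++ [fl s] := by
      have h1 : w.drop i = (w.take n).drop i ++ [s] := by
        conv_lhs => rw [hdec, hs1]
        rw [List.drop_append_of_le_length (by omega)]
      unfold fd
      rw [h1]
      simp
    have hse : s = eE := by
      rw [hfl] at hfd
      have h2 : c ++ ng (e ++ [eE]) = (c ++ ng e) ++ [-eE] := by
        rw [ng_append]
        simp [ng]
      rw [h2] at hfd
      have h3 := (List.append_inj' hfd (by simp)).2
      have h4 : fl s = -eE := by simpa using h3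
      have h5 : fl (fl s) = fl (-eE) := by rw [h4]
      rw [fl_fl] at h5
      rw [h5]
      simp [fl, eE]
    have hweq : w = w.take n ++ [eE] := by rw [← hse, ← hs1]; exact hdec
    have hposn : (pos w (n + 1)).1 = (pos w n).1 + 1 := by
      have h1 : pos w (n + 1) = pos (w.take n ++ [eE]) (n + 1) := by rw [← hweq]
      have h2 : pos (w.take n ++ [eE]) (n + 1) = (w.take n).sum + eE := by
        have := pos_append_right (w.take n) [eE] 1
        rw [htl] at this
        rw [this]
        simp [pos]
      rw [h1, h2]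
      rfl
    have hstx : ∀ k ≤ n, (pos w k).1 ≤ (pos w n).1 := by
      intro k hk
      have := hst k (by omega)
      rw [hl, hposn] at this
      omega
    have hbr : Bridge (w.take n) := by
      refine ⟨hb.1.take n, fun k h0 hk => ?_⟩
      rw [htl] at hk ⊢
      rw [pos_take _ hk, pos_take _ le_rfl]
      exact ⟨(hb.2 k h0 (by omega)).1, hstx k hk⟩
    refine ⟨hbr, htl, hweq, ?_⟩
    -- the span
    have h1 := sp_eq hbr
    have h2 : (w.take n).sum = pos w n := rfl
    rw [h2] at h1
    have hE := bridge_snoc he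
    have hsE := sp_snoc he
    have hsc := sp_eq hc
    have hseE := sp_eq hE
    have hlE : (e ++ [eE]).length = e.length + 1 := by simp
    have p1 : (pos (c ++ ng (e ++ [eE])) (n + 1)).1 = 2 * (pos w i).1 - (pos w (n + 1)).1 := by
      rw [← hfd, pos_fd_ge (by omega) (by omega)]
    have p2 : (pos (c ++ ng (e ++ [eE])) (n + 1)).1 = sp c - (sp e + 1) := by
      rw [← hn, add_assoc, pos_append_right, pos_ng, ← hlE, pos_len, Prod.fst_add, Prod.fst_neg,
        ← hsc, ← hseE, hsE]
      push_cast
      ring
    have p3 : (pos w i).1 ≤ sp c := by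
      have h5 : (pos (c ++ ng (e ++ [eE])) i).1 = (pos w i).1 := by
        rw [← hfd, pos_fd_le (by omega) le_rfl]
      rw [← h5]
      rcases Nat.le_total i c.length with h6 | h6
      · rw [pos_append_left _ _ h6]
        have := hc.le_end h6
        rwa [pos_len, ← hsc] at this
      · obtain ⟨m, rfl⟩ : ∃ m, i = c.length + m := ⟨i - c.length, by omega⟩
        rw [pos_append_right, Prod.fst_add, ← hsc, pos_ng, Prod.fst_neg]
        have := hE.nonneg (i := m) (by omega)
        omega
    omega
  refine ite_le_inj (fun p : Br × Br => z ^ sp p.1.1 * z ^ sp p.2.1) (fun b : Br => z ^ sp b.1)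
    (fun p => (⟨_, (key p).1⟩ : Br)) ?_ ?_ ?_
  · intro p q hpq
    have h1 := congrArg Subtype.val hpq
    simp only at h1
    have h2 : g (p.1.1.1 ++ ng (p.1.2.1 ++ [eE])) = g (q.1.1.1 ++ ng (q.1.2.1 ++ [eE])) := by
      rw [(key p).2.2.1, (key q).2.2.1, h1]
    have h3 := hg1 (hs p) (hs q) h2
    obtain ⟨h4, h5⟩ := hair_inj p.1.1.2 (bridge_snoc p.1.2.2) q.1.1.2 (bridge_snoc q.1.2.2) h3
    have h6 := (List.append_inj' h5 rfl).1
    exact Subtype.ext (Prod.ext (Subtype.ext h4) (Subtype.ext h6))
  · intro p
    exact (key p).2.1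
  · intro p
    simp only
    rw [← pow_add]
    exact pow_le_pow_right_of_le_one' hz (key p).2.2.2

end Pool.Agent.Work.MP_376faf_co_cub
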