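import Pool.Agent.Work.MP_376faf_co_cub.Ser
import Pool.Agent.Work.MP_376faf_co_cub.Geo
import Pool.Agent.Work.MP_376faf_co_cub.VWin

/-! The generating series of the ray hairpins is at most `8 i + 10` times the one of the
bridges. -/

set_option autoImplicit false

namespace Pool.Agent.Work.MP_376faf_co_cub

open Pool.Agent.Work.MP_376faf_co_lower Pool.Agent.Work.MP_376faf_co_hw
open Pool.Agent.Work.MP_376faf_co_neps
open scoped ENNReal

/-- bridges, span weight `z` -/
noncomputable def Uz (z : ℝ≥0∞) : PS := S (fun b : Br => b.1.length) (fun b => z ^ sp b.1)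

/-- bridges -/
noncomputable def Bz : PS := S (fun b : Br => b.1.length) (fun _ => 1)

/-- irreducible bridges, weight `1 - z ^ span` -/
noncomputable def Kz (z : ℝ≥0∞) : PS := S (fun j : Ir => j.1.length) (fun j => 1 - z ^ sp j.1)

open Classical in
/-- tips: the first arm has span at most `N` -/
noncomputable def Vz (N : ℕ) (z : ℝ≥0∞) : PS := S (fun p : Br × Br => p.1.1.length + p.2.1.length)
  (fun p => if W2 p.1.1 p.2.1 ∧ sp p.1.1 ≤ N then z ^ sp p.1.1 * z ^ sp p.2.1 else 0)

/-- ends of the windows -/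
def xt : ℕ → ℕ
  | 0 => 1
  | t + 1 => (3 * xt t + 1) / 2

theorem xt_pos : ∀ t, 1 ≤ xt t
  | 0 => le_rfl
  | t + 1 => by
    have := xt_pos t
    unfold xt
    omega

theorem xt_succ (t : ℕ) : xt (t + 1) = (3 * xt t + 1) / 2 := rfl

theorem xt_two (t : ℕ) : 2 ^ t ≤ xt (2 * t) := by
  induction t with
  | zero => exact le_rfl
  | succ t ih =>
    have h1 := xt_succ (2 * t)
    have h2 := xt_succ (2 * t + 1)
    have h3 : 2 * (t + 1) = 2 * t + 1 + 1 := by ring
    rw [h3, pow_succ]
    omega

theorem exists_window {m : ℕ} (h1 : 1 ≤ m) : ∀ T, m < xt T → ∃ t < T, xt t ≤ m ∧ m < xt (t + 1) := by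
  intro T
  induction T with
  | zero =>
    intro h
    have : xt 0 = 1 := rfl
    omega
  | succ T ih =>
    intro h
    rcases Nat.lt_or_ge m (xt T) with h2 | h2
    · obtain ⟨t, ht, h3⟩ := ih h2
      exact ⟨t, by omega, h3⟩
    · exact ⟨T, by omega, h2, h⟩

theorem winS_one (t T2 : ℕ) : WinS (xt t) (xt (t + 1)) (xt t) T2 := by
  have h1 := xt_pos t
  have h2 := xt_succ t
  exact ⟨h1, h1, Or.inl ⟨by omega, by omega, by omega⟩⟩

theorem winS_two (t T1 : ℕ) : WinS (xt t) T1 (xt t) (xt (t + 1)) := by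
  have h1 := xt_pos t
  have h2 := xt_succ t
  exact ⟨h1, h1, Or.inr ⟨by omega, by omega⟩⟩

theorem sp_le_length {l : List Pt} (h : Bridge l) : sp l ≤ l.length := by
  have h1 : ∀ i ≤ l.length, (pos l i).1 ≤ i := by
    intro i
    induction i with
    | zero => intro _; simp
    | succ i ih =>
      intro hi
      have h2 := ih (by omega)
      rw [pos_succ l (by omega), Prod.fst_add]
      have h3 := h.1.1 _ (List.getElem_mem (show i < l.length by omega))
      unfold Un at h3
      have h4 := le_abs_self (l[i]).1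
      have h5 := abs_nonneg (l[i]).2
      push_cast
      omega
  have h2 := h1 l.length le_rfl
  rw [pos_len, ← sp_eq h] at h2
  exact_mod_cast h2

theorem sp_pos {l : List Pt} (h : Bridge l) (h0 : l ≠ []) : 1 ≤ sp l := by
  have h1 := (h.2 l.length (List.length_pos_iff.2 h0) le_rfl).1
  rw [pos_len, ← sp_eq h] at h1
  exact_mod_cast h1

/-- every pair with the first arm at most `2 ^ i` lies in a window -/
theorem RQ.window {c e : List Pt} (hc : Bridge c) (he : Bridge e) (h : RQ c e) {i : ℕ}
    (hs : sp c ≤ 2 ^ i) : ∃ t < 2 * (i + 1),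
      RW (xt t) (xt (t + 1)) (xt t) (c.length + e.length + 2) c e ∨
      RW (xt t) (c.length + e.length + 1) (xt t) (xt (t + 1)) c e := by
  have h1 := sp_pos hc h.cp.2.1
  have h2 := xt_two (i + 1)
  have h3 : 2 ^ i < 2 ^ (i + 1) := Nat.pow_lt_pow_right (by norm_num) (by omega)
  have h4 := sp_le_length hc
  have h5 := sp_le_length he
  rcases Nat.le_total (sp c) (sp e + 1) with h6 | h6
  · obtain ⟨t, ht, h7, h8⟩ := exists_window h1 (2 * (i + 1)) (by omega)
    exact ⟨t, ht, Or.inl ⟨h, h7, h8, by omega, by omega⟩⟩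
  · obtain ⟨t, ht, h7, h8⟩ := exists_window (m := sp e + 1) (by omega) (2 * (i + 1)) (by omega)
    exact ⟨t, ht, Or.inr ⟨h, by omega, by omega, h7, h8⟩⟩

open Classical in
/-- the contributions of one window -/
noncomputable def ww (n t : ℕ) (p : Br × Br) : ℝ≥0∞ :=
  (if p.1.1.length + p.2.1.length = n ∧ RW (xt t) (xt (t + 1)) (xt t) (n + 2) p.1.1 p.2.1 then 1
    else 0) +
  (if p.1.1.length + p.2.1.length = n ∧ RW (xt t) (n + 1) (xt t) (xt (t + 1)) p.1.1 p.2.1 then 1
    else 0)

theorem coeff_S {α : Type} (len : α → ℕ) (w : α → ℝ≥0∞) (n : ℕ) : PowerSeries.coeff n (S len w) =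
    ∑' a, open Classical in if len a = n then w a else 0 := by
  unfold S
  rw [PowerSeries.coeff_mk]

theorem Vz_le {z : ℝ≥0∞} (hz : z ≤ 1) (i : ℕ) :
    Le (Vz (2 ^ i) z) (cc (8 * i + 10 : ℕ) * Uz z) := by
  classical
  intro n
  set u : ℝ≥0∞ := ∑' b : Br, if b.1.length = n then z ^ sp b.1 else 0 with hu
  have hU : PowerSeries.coeff n (Uz z) = u := by
    unfold Uz
    rw [coeff_S]
  have hR : PowerSeries.coeff n (cc (8 * i + 10 : ℕ) * Uz z) = (8 * i + 10 : ℕ) * u := by
    unfold cc
    rw [PowerSeries.coeff_C_mul, hU]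
  rw [hR]
  unfold Vz
  rw [coeff_S]
  set n0 : Br := ⟨[], bridge_nil⟩ with hn0
  set f : Br × Br → ℝ≥0∞ := fun p => z ^ sp p.1.1 * z ^ sp p.2.1 with hf
  have hfr : ∀ p, f (ryE p) = f p := by
    intro p
    simp only [hf, ryE, Equiv.coe_fn_mk, sp_ry]
  have key : ∀ p : Br × Br, (if p.1.1.length + p.2.1.length = n then
      (if W2 p.1.1 p.2.1 ∧ sp p.1.1 ≤ 2 ^ i then f p else 0) else 0) ≤
      (if p.1.1.length + p.2.1.length = n ∧ p.1 = n0 then f p else 0) +
      (if p.1.1.length + p.2.1.length = n ∧ p.2 = n0 then f p else 0) +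
      ∑ t ∈ Finset.range (2 * (i + 1)), (ww n t p * f p + ww n t (ryE p) * f (ryE p)) := by
    intro p
    by_cases hl : p.1.1.length + p.2.1.length = n
    · rw [if_pos hl]
      by_cases hw : W2 p.1.1 p.2.1 ∧ sp p.1.1 ≤ 2 ^ i
      · rw [if_pos hw]
        obtain ⟨h1, hs⟩ := hw
        rcases h1 with h1 | h1 | h1 | h1
        · refine le_trans ?_ (le_trans le_self_add le_self_add)
          rw [if_pos ⟨hl, Subtype.ext h1⟩]
        · refine le_trans ?_ (le_trans le_add_self le_self_add)
          rw [if_pos ⟨hl, Subtype.ext h1⟩]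
        · refine le_trans ?_ le_add_self
          obtain ⟨t, ht, h2⟩ := h1.window p.1.2 p.2.2 hs
          refine le_trans ?_ (Finset.single_le_sum (f := fun t => ww n t p * f p +
            ww n t (ryE p) * f (ryE p)) (fun _ _ => zero_le) (Finset.mem_range.2 ht))
          refine le_trans ?_ le_self_add
          rw [hl] at h2
          have : 1 ≤ ww n t p := by
            unfold ww
            rcases h2 with h2 | h2
            · rw [if_pos ⟨hl, h2⟩]
              exact le_self_add
            · rw [if_pos (c := p.1.1.length + p.2.1.length = n ∧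
                RW (xt t) (n + 1) (xt t) (xt (t + 1)) p.1.1 p.2.1) ⟨hl, h2⟩]
              exact le_add_self
          calc f p = 1 * f p := (one_mul _).symm
            _ ≤ _ := mul_le_mul' this le_rfl
        · refine le_trans ?_ le_add_self
          obtain ⟨t, ht, h2⟩ := h1.window (ry_bridge p.1.2) (ry_bridge p.2.2)
            (by rw [sp_ry]; exact hs)
          refine le_trans ?_ (Finset.single_le_sum (f := fun t => ww n t p * f p +
            ww n t (ryE p) * f (ryE p)) (fun _ _ => zero_le) (Finset.mem_range.2 ht))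
          refine le_trans ?_ le_add_self
          rw [ry_length, ry_length, hl] at h2
          have hl' : (ryE p).1.1.length + (ryE p).2.1.length = n := by
            simp only [ryE, Equiv.coe_fn_mk, ry_length]
            exact hl
          have : 1 ≤ ww n t (ryE p) := by
            unfold ww
            rcases h2 with h2 | h2
            · rw [if_pos ⟨hl', h2⟩]
              exact le_self_add
            · rw [if_pos (c := (ryE p).1.1.length + (ryE p).2.1.length = n ∧
                RW (xt t) (n + 1) (xt t) (xt (t + 1)) (ryE p).1.1 (ryE p).2.1) ⟨hl', h2⟩]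
              exact le_add_self
          calc f p = 1 * f (ryE p) := by rw [one_mul, hfr]
            _ ≤ _ := mul_le_mul' this le_rfl
      · rw [if_neg hw]
        exact zero_le
    · rw [if_neg hl]
      exact zero_le
  refine (ENNReal.tsum_le_tsum key).trans ?_
  rw [ENNReal.tsum_add, ENNReal.tsum_add, Summable.tsum_finsetSum (fun _ _ => ENNReal.summable)]
  -- empty arms
  have hA : ∑' p : Br × Br, (if p.1.1.length + p.2.1.length = n ∧ p.1 = n0 then f p else 0) ≤ u := by
    refine ite_le_inj f (fun b : Br => z ^ sp b.1) (fun p => p.1.2) ?_ ?_ ?_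
    · rintro ⟨⟨a, b⟩, h1, h2⟩ ⟨⟨a', b'⟩, h1', h2'⟩ h
      simp only at h2 h2' h
      subst h2 h2' h
      rfl
    · rintro ⟨⟨a, b⟩, h1, h2⟩
      simp only at h1 h2 ⊢
      rw [h2, hn0] at h1
      simpa using h1
    · rintro ⟨⟨a, b⟩, h1, h2⟩
      simp only at h2
      simp only [hf, h2, hn0]
      simp [sp]
  have hB : ∑' p : Br × Br, (if p.1.1.length + p.2.1.length = n ∧ p.2 = n0 then f p else 0) ≤ u := by
    refine ite_le_inj f (fun b : Br => z ^ sp b.1) (fun p => p.1.1) ?_ ?_ ?_
    · rintro ⟨⟨a, b⟩, h1, h2⟩ ⟨⟨a', b'⟩, h1', h2'⟩ h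
      simp only at h2 h2' h
      subst h2 h2' h
      rfl
    · rintro ⟨⟨a, b⟩, h1, h2⟩
      simp only at h1 h2 ⊢
      rw [h2, hn0] at h1
      simpa using h1
    · rintro ⟨⟨a, b⟩, h1, h2⟩
      simp only at h2
      simp only [hf, h2, hn0]
      simp [sp]
  have hC : ∀ t, ∑' p : Br × Br, ww n t p * f p ≤ 2 * u := by
    intro t
    have h1 := win_le hz n _ _ _ (n + 2) (winS_one t (n + 2))
    have h2 := win_le hz n _ (n + 1) _ _ (winS_two t (n + 1))
    calc ∑' p : Br × Br, ww n t p * f p = _ := by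
          unfold ww
          simp only [add_mul, ite_mul, one_mul, zero_mul]
          rw [ENNReal.tsum_add]
      _ ≤ u + u := add_le_add h1 h2
      _ = 2 * u := (two_mul u).symm
  have hD : ∀ t ∈ Finset.range (2 * (i + 1)), ∑' p : Br × Br, (ww n t p * f p +
      ww n t (ryE p) * f (ryE p)) ≤ 4 * u := by
    intro t _
    rw [ENNReal.tsum_add, ryE.tsum_eq (fun p => ww n t p * f p)]
    calc _ ≤ 2 * u + 2 * u := add_le_add (hC t) (hC t)
      _ = 4 * u := by ring
  calc _ ≤ u + u + ∑ t ∈ Finset.range (2 * (i + 1)), 4 * u :=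
        add_le_add (add_le_add hA hB) (Finset.sum_le_sum hD)
    _ = (8 * i + 10 : ℕ) * u := by
        rw [Finset.sum_const, Finset.card_range, nsmul_eq_mul]
        push_cast
        ring

end Pool.Agent.Work.MP_376faf_co_cub
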